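import Pool.Agent.Helper65.SH.Ge

/-!
# Project SH (MP_274814_nt), block G: functions on the types which are affine and vanish on the
Fermat types
-/

set_option autoImplicit false

namespace Pool.Agent.Helper65.SH

open Finset
open Pool.Agent.Helper44.LT (PU)
open Pool.Agent.Helper32.LU (Pr)

/-- the numbers prime to `q` -/
def Un (q : ℕ) : Finset ℕ := (Icc 1 (q - 1)).filter fun u => Nat.Coprime u q

/-- a CM type of level `q` -/
def IsT (q : ℕ) (Φ : Finset ℕ) : Prop := Φ ⊆ Un q ∧ ∀ u ∈ Un q, (u ∈ Φ ↔ q - u ∉ Φ)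

/-- exchange `u` and `q - u` -/
def sw (q u : ℕ) (Φ : Finset ℕ) : Finset ℕ := insert (q - u) (Φ.erase u)

theorem mem_Un {q u : ℕ} : u ∈ Un q ↔ 1 ≤ u ∧ u < q ∧ u.Coprime q := by
  rw [Un, mem_filter, mem_Icc]
  constructor
  · rintro ⟨⟨h1, h2⟩, h3⟩
    exact ⟨h1, by omega, h3⟩
  · rintro ⟨h1, h2, h3⟩
    exact ⟨⟨h1, by omega⟩, h3⟩

theorem neg_Un {q u : ℕ} (h : u ∈ Un q) : q - u ∈ Un q := by
  rw [mem_Un] at h ⊢
  exact ⟨by omega, by omega, (Nat.coprime_self_sub_left h.2.1.le).2 h.2.2⟩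

theorem neg_neg' {q u : ℕ} (h : u ∈ Un q) : q - (q - u) = u := by
  rw [mem_Un] at h
  omega

theorem neg_ne {q u : ℕ} (hq : 3 ≤ q) (h : u ∈ Un q) : q - u ≠ u := by
  intro h1
  rw [mem_Un] at h
  have h2 : q = 2 * u := by omega
  have h3 : u ∣ q := ⟨2, by omega⟩
  have h4 := Nat.dvd_gcd (dvd_refl u) h3
  have h5 : Nat.gcd u q = 1 := h.2.2
  rw [h5, Nat.dvd_one] at h4
  omega

theorem IsT.neg_notMem {q u : ℕ} {Φ : Finset ℕ} (h : IsT q Φ) (hu : u ∈ Φ) : q - u ∉ Φ :=
  (h.2 u (h.1 hu)).1 hu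

theorem IsT.sw {q v : ℕ} {Φ : Finset ℕ} (hq : 3 ≤ q) (h : IsT q Φ) (hv : v ∈ Φ) :
    IsT q (sw q v Φ) := by
  have hvU := h.1 hv
  refine ⟨?_, ?_⟩
  · intro x hx
    rw [Helper65.SH.sw, mem_insert, mem_erase] at hx
    rcases hx with rfl | ⟨_, hx⟩
    · exact neg_Un hvU
    · exact h.1 hx
  · intro u hu
    rw [Helper65.SH.sw, mem_insert, mem_erase, mem_insert, mem_erase]
    have h1 := h.2 u hu
    have h2 := neg_neg' hvU
    have h3 := neg_neg' hu
    have h4 := neg_ne hq hvU
    have h5 := neg_ne hq hu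
    have h6 := h.neg_notMem hv
    by_cases e1 : u = v
    · subst e1
      constructor
      · rintro (h7 | ⟨h7, _⟩)
        · exact absurd h7.symm h4
        · exact absurd rfl h7
      · intro h7
        exfalso
        apply h7
        left
        rfl
    · by_cases e2 : u = q - v
      · subst e2
        rw [h2]
        constructor
        · intro _ h7
          rcases h7 with h7 | ⟨h7, _⟩
          · exact h4 h7.symm
          · exact h7 rfl
        · intro _
          left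
          rfl
      · have e3 : q - u ≠ v := by
          intro h7
          apply e2
          rw [← h7, h3]
        have e4 : q - u ≠ q - v := by
          intro h7
          apply e1
          rw [← h3, h7, h2]
        constructor
        · rintro (h7 | ⟨_, h7⟩)
          · exact absurd h7 e2
          · rintro (h8 | ⟨_, h8⟩)
            · exact e4 h8
            · exact h1.1 h7 h8
        · intro h7
          right
          refine ⟨e1, h1.2 fun h8 => h7 (Or.inr ⟨e3, h8⟩)⟩

theorem sw_sw {q v : ℕ} {Φ : Finset ℕ} (_hq : 3 ≤ q) (h : IsT q Φ) (hv : v ∈ Φ) :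
    sw q (q - v) (sw q v Φ) = Φ := by
  have hvU := h.1 hv
  have h1 := h.neg_notMem hv
  rw [sw, sw, neg_neg' hvU, erase_insert (fun h2 => h1 (mem_of_mem_erase h2)), insert_erase hv]

theorem mem_sw_self {q v : ℕ} {Φ : Finset ℕ} : q - v ∈ sw q v Φ := mem_insert_self _ _

theorem mem_sw {q v x : ℕ} {Φ : Finset ℕ} (hx : x ∈ Φ) (hne : x ≠ v) : x ∈ sw q v Φ :=
  mem_insert_of_mem (mem_erase.2 ⟨hne, hx⟩)

/-- two types containing `T` are connected by exchanges outside `T` -/
theorem conn {q : ℕ} (hq : 3 ≤ q) (T : Finset ℕ) (R : Finset ℕ → Prop) (Φ0 : Finset ℕ)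
    (h0 : IsT q Φ0) (hT0 : T ⊆ Φ0) (hR0 : R Φ0)
    (hstep : ∀ Φ, IsT q Φ → T ⊆ Φ → R Φ → ∀ u ∈ Φ, u ∉ T → R (sw q u Φ)) :
    ∀ Φ, IsT q Φ → T ⊆ Φ → R Φ := by
  have key : ∀ (m : ℕ) (Φ : Finset ℕ), (Φ \ Φ0).card = m → IsT q Φ → T ⊆ Φ → R Φ := by
    intro m
    induction m with
    | zero =>
      intro Φ hm h hT
      rw [card_eq_zero, sdiff_eq_empty_iff_subset] at hm
      have h1 : Φ = Φ0 := by
        refine Subset.antisymm hm fun u hu => ?_
        by_contra h2
        have hu' := h0.1 hu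
        have h3 : q - u ∈ Φ := by
          by_contra h4
          exact h2 ((h.2 u hu').2 h4)
        exact h0.neg_notMem hu (hm h3)
      rwa [h1]
    | succ m ih =>
      intro Φ hm h hT
      have hne : (Φ \ Φ0).Nonempty := by
        rw [← card_pos, hm]
        omega
      obtain ⟨v, hv⟩ := hne
      rw [mem_sdiff] at hv
      have hvU := h.1 hv.1
      have hv0 : q - v ∈ Φ0 := by
        by_contra h1
        exact hv.2 ((h0.2 v hvU).2 h1)
      have hT' : T ⊆ sw q v Φ := by
        intro x hx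
        refine mem_sw (hT hx) ?_
        rintro rfl
        exact hv.2 (hT0 hx)
      have hcard : (sw q v Φ \ Φ0).card = m := by
        have h1 : sw q v Φ \ Φ0 = (Φ \ Φ0).erase v := by
          ext x
          rw [mem_sdiff, mem_erase, mem_sdiff, sw, mem_insert, mem_erase]
          constructor
          · rintro ⟨h2 | h2, h3⟩
            · rw [h2] at h3
              exact absurd hv0 h3
            · exact ⟨h2.1, h2.2, h3⟩
          · rintro ⟨h2, h3, h4⟩
            exact ⟨Or.inr ⟨h2, h3⟩, h4⟩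
        rw [h1, card_erase_of_mem (mem_sdiff.2 hv), hm]
        rfl
      have h2 := ih (sw q v Φ) hcard (h.sw hq hv.1) hT'
      have h3 := hstep _ (h.sw hq hv.1) hT' h2 (q - v) mem_sw_self (fun h4 =>
        h.neg_notMem hv.1 (hT h4))
      rwa [sw_sw hq h hv.1] at h3
  intro Φ h hT
  exact key _ Φ rfl h hT

theorem mod_neg {q u a : ℕ} (hu : u ∈ Un q) (ha : ¬ q ∣ a) :
    ((q - u) * a) % q = q - (u * a) % q := by
  have h := mem_Un.1 hu
  have hq : 0 < q := by omega
  have h1 : ¬ q ∣ u * a := fun h2 => ha (h.2.2.symm.dvd_of_dvd_mul_left h2)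
  have h2 : (u * a) % q ≠ 0 := fun h3 => h1 (Nat.dvd_of_mod_eq_zero h3)
  have h3 : (u * a) % q < q := Nat.mod_lt _ hq
  have h4 : (q - u) * a + u * a = q * a := by
    rw [← add_mul, Nat.sub_add_cancel h.2.1.le]
  have h5 : (((q - u) * a) % q + (u * a) % q) % q = 0 := by
    rw [← Nat.add_mod, h4, Nat.mul_mod_right]
  have h6 : ((q - u) * a) % q < q := Nat.mod_lt _ hq
  have h7 : ((q - u) * a) % q + (u * a) % q = q := by
    obtain ⟨k, hk⟩ := Nat.dvd_of_mod_eq_zero h5
    have h8 : 0 < k := by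
      rcases Nat.eq_zero_or_pos k with h9 | h9
      · rw [h9, mul_zero] at hk
        omega
      · exact h9
    have h9 : k < 2 := by
      by_contra h10
      have : q * 2 ≤ q * k := Nat.mul_le_mul_left q (by omega)
      omega
    have h10 : k = 1 := by omega
    rw [hk, h10, mul_one]
  omega

theorem mem_PU {q a b u : ℕ} : u ∈ PU q a b ↔ u ∈ Un q ∧ q < (u * a) % q + (u * b) % q := by
  rw [mem_Un, PU, mem_filter, mem_filter, mem_Icc]
  constructor
  · rintro ⟨⟨⟨h1, h2⟩, h3⟩, h4⟩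
    exact ⟨⟨h1, by omega, h4⟩, h3⟩
  · rintro ⟨⟨h1, h2, h4⟩, h3⟩
    exact ⟨⟨⟨h1, by omega⟩, h3⟩, h4⟩

theorem PU_ne {q a b u : ℕ} (hq : 3 ≤ q) (h : Pr q a b) (hu : u ∈ Un q) :
    (u * a) % q + (u * b) % q ≠ q := by
  intro h1
  have h2 : (u * (a + b)) % q = 0 := by
    rw [mul_add, Nat.add_mod, h1, Nat.mod_self]
  have h3 := Nat.dvd_of_mod_eq_zero h2
  have h4 : q ∣ a + b := (mem_Un.1 hu).2.2.symm.dvd_of_dvd_mul_left h3
  have h5 := Nat.dvd_gcd h4 (dvd_refl q)
  have h6 : Nat.gcd (a + b) q = 1 := h.2.2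
  rw [h6, Nat.dvd_one] at h5
  omega

theorem isT_PU {q a b : ℕ} (hq : 3 ≤ q) (h : Pr q a b) : IsT q (PU q a b) := by
  refine ⟨fun u hu => (mem_PU.1 hu).1, fun u hu => ?_⟩
  rw [mem_PU, mem_PU, mod_neg hu h.1, mod_neg hu h.2.1]
  have h1 := PU_ne hq h hu
  have h2 : (u * a) % q < q := Nat.mod_lt _ (by omega)
  have h3 : (u * b) % q < q := Nat.mod_lt _ (by omega)
  constructor
  · rintro ⟨_, h4⟩ ⟨_, h5⟩
    omega
  · intro h4
    refine ⟨hu, ?_⟩
    by_contra h5
    apply h4
    exact ⟨neg_Un hu, by omega⟩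

/-- the conjugate type -/
theorem PU_neg {q a b : ℕ} (hq : 3 ≤ q) (h : Pr q a b) :
    Pr q ((q - 1) * a) ((q - 1) * b) ∧
      ∀ u ∈ Un q, (u ∈ PU q ((q - 1) * a) ((q - 1) * b) ↔ u ∉ PU q a b) := by
  have hc : Nat.Coprime (q - 1) q := by
    have h1 := (Nat.coprime_self_sub_left (m := 1) (n := q) (by omega)).2 (Nat.coprime_one_left q)
    exact h1
  have h1U : (1 : ℕ) ∈ Un q := mem_Un.2 ⟨le_rfl, by omega, Nat.coprime_one_left q⟩
  refine ⟨⟨fun h1 => h.1 (hc.symm.dvd_of_dvd_mul_left h1),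
    fun h1 => h.2.1 (hc.symm.dvd_of_dvd_mul_left h1), ?_⟩, ?_⟩
  · rw [← mul_add]
    exact hc.mul_left h.2.2
  · intro u hu
    have e : ∀ x, ¬ q ∣ x → (u * ((q - 1) * x)) % q = q - (u * x) % q := by
      intro x hx
      have h1 : ¬ q ∣ u * x := fun h2 => hx ((mem_Un.1 hu).2.2.symm.dvd_of_dvd_mul_left h2)
      have h2 := mod_neg h1U h1
      rw [one_mul] at h2
      rw [← h2]
      congr 1
      ring
    rw [mem_PU, mem_PU, e a h.1, e b h.2.1]
    have h1 := PU_ne hq h hu
    have h2 : (u * a) % q < q := Nat.mod_lt _ (by omega)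
    have h3 : (u * b) % q < q := Nat.mod_lt _ (by omega)
    constructor
    · rintro ⟨_, h4⟩ ⟨_, h5⟩
      omega
    · intro h4
      refine ⟨hu, ?_⟩
      by_contra h5
      apply h4
      exact ⟨hu, by omega⟩

variable {C : Type*} [AddCommGroup C] [Module ℚ C]

/-- THEOREM G. -/
theorem types_zero (q : ℕ) (hq : 3 ≤ q) (P : Finset ℕ → ℕ → C)
    (hP : ∀ Φ, IsT q Φ → ∀ u v s, u ∈ Φ → v ∈ Φ → s ∈ Φ → u ≠ v → s ≠ u → s ≠ v →
      P Φ s + P (sw q u (sw q v Φ)) s = P (sw q u Φ) s + P (sw q v Φ) s)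
    (hF : ∀ a b : ℕ, Pr q a b → ∀ s ∈ PU q a b, P (PU q a b) s = 0) :
    ∀ Φ, IsT q Φ → ∀ s ∈ Φ, P Φ s = 0 := by
  intro Φ0 h0 s hs0
  have hsU := h0.1 hs0
  -- independence of the difference
  have hD : ∀ v ∈ Φ0, v ≠ s → ∀ Φ, IsT q Φ → ({s, v} : Finset ℕ) ⊆ Φ →
      P Φ s - P (sw q v Φ) s = P Φ0 s - P (sw q v Φ0) s := by
    intro v hv hvs
    refine conn hq {s, v} _ Φ0 h0 ?_ rfl ?_
    · intro x hx
      rw [mem_insert, mem_singleton] at hx
      rcases hx with rfl | rfl
      · exact hs0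
      · exact hv
    · intro Φ h hT hR u hu huT
      rw [mem_insert, mem_singleton, not_or] at huT
      have hsΦ : s ∈ Φ := hT (mem_insert_self _ _)
      have hvΦ : v ∈ Φ := hT (mem_insert_of_mem (mem_singleton_self v))
      have h1 := hP Φ h v u s hvΦ hu hsΦ (Ne.symm huT.2) (Ne.symm hvs) (Ne.symm huT.1)
      rw [← hR]
      have h2 : P (sw q v (sw q u Φ)) s = P (sw q v Φ) s + P (sw q u Φ) s - P Φ s := by
        rw [← h1]
        abel
      rw [h2]
      abel
  set d : ℕ → C := fun v => P Φ0 s - P (sw q v Φ0) s with hd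
  set m : ℕ → C := fun v => if v = s then P Φ0 s - ∑ w ∈ Φ0.erase s, (1 / 2 : ℚ) • d w
    else (1 / 2 : ℚ) • d v with hm
  set n : ℕ → C := fun v => if v ∈ Φ0 then m v else -m (q - v) with hn
  have hnodd : ∀ u ∈ Un q, n (q - u) = -n u := by
    intro u hu
    simp only [hn]
    by_cases h1 : u ∈ Φ0
    · rw [if_pos h1, if_neg (h0.neg_notMem h1), neg_neg' hu]
    · have h2 : q - u ∈ Φ0 := by
        by_contra h3
        exact h1 ((h0.2 u hu).2 h3)
      rw [if_neg h1, if_pos h2, neg_neg]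
  have hf : ∀ Φ, IsT q Φ → ({s} : Finset ℕ) ⊆ Φ → P Φ s = ∑ v ∈ Φ, n v := by
    refine conn hq {s} _ Φ0 h0 ?_ ?_ ?_
    · intro x hx
      rw [mem_singleton] at hx
      rw [hx]
      exact hs0
    · have h1 : ∑ v ∈ Φ0, n v = ∑ v ∈ Φ0, m v := by
        refine sum_congr rfl fun v hv => ?_
        simp only [hn]
        rw [if_pos hv]
      rw [h1, ← add_sum_erase _ _ hs0]
      have h2 : ∑ v ∈ Φ0.erase s, m v = ∑ w ∈ Φ0.erase s, (1 / 2 : ℚ) • d w := by
        refine sum_congr rfl fun v hv => ?_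
        simp only [hm]
        rw [if_neg (ne_of_mem_erase hv)]
      have h3 : m s = P Φ0 s - ∑ w ∈ Φ0.erase s, (1 / 2 : ℚ) • d w := by
        simp only [hm, if_true]
      rw [h2, h3, sub_add_cancel]
    · intro Φ h hT hR u hu huT
      rw [mem_singleton] at huT
      have hsΦ : s ∈ Φ := hT (mem_singleton_self s)
      have huU := h.1 hu
      have h1 : P Φ s - P (sw q u Φ) s = (2 : ℚ) • n u := by
        by_cases hu0 : u ∈ Φ0
        · have h2 : n u = (1 / 2 : ℚ) • d u := by
            simp only [hn, hm]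
            rw [if_pos hu0, if_neg huT]
          rw [h2, smul_smul]
          norm_num
          refine hD u hu0 huT Φ h ?_
          intro x hx
          rw [mem_insert, mem_singleton] at hx
          rcases hx with rfl | rfl
          · exact hsΦ
          · exact hu
        · have hu1 : q - u ∈ Φ0 := by
            by_contra h3
            exact hu0 ((h0.2 u huU).2 h3)
          have hne : q - u ≠ s := by
            intro h3
            exact h.neg_notMem hu (h3 ▸ hsΦ)
          have h2 : n u = -((1 / 2 : ℚ) • d (q - u)) := by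
            simp only [hn, hm]
            rw [if_neg hu0, if_neg hne]
          have h3 := hD (q - u) hu1 hne (sw q u Φ) (h.sw hq hu) (by
            intro x hx
            rw [mem_insert, mem_singleton] at hx
            rcases hx with rfl | rfl
            · exact mem_sw hsΦ (Ne.symm huT)
            · exact mem_sw_self)
          rw [sw_sw hq h hu] at h3
          rw [h2, smul_neg, smul_smul]
          norm_num
          simp only [hd]
          rw [← h3]
          abel
      have h2 : ∑ v ∈ sw q u Φ, n v = ∑ v ∈ Φ, n v - (2 : ℚ) • n u := by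
        have h3 : q - u ∉ Φ.erase u := fun h4 => h.neg_notMem hu (mem_of_mem_erase h4)
        rw [sw, sum_insert h3, hnodd u huU, ← add_sum_erase _ _ hu, two_smul]
        abel
      rw [h2, ← hR, ← h1]
      abel
  -- the Fermat types
  have hFn : ∀ a b : ℕ, Pr q a b → ∑ u ∈ PU q a b, n u = 0 := by
    intro a b hab
    have hT := isT_PU hq hab
    by_cases hsP : s ∈ PU q a b
    · rw [← hf _ hT (singleton_subset_iff.2 hsP)]
      exact hF a b hab s hsP
    · obtain ⟨hab', hmem⟩ := PU_neg hq hab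
      have hsP' := (hmem s hsU).2 hsP
      have h1 := hf _ (isT_PU hq hab') (singleton_subset_iff.2 hsP')
      rw [hF _ _ hab' s hsP'] at h1
      have h2 : ∑ u ∈ PU q a b, n u = ∑ v ∈ PU q ((q - 1) * a) ((q - 1) * b), n (q - v) := by
        refine sum_bij (fun u _ => q - u) ?_ ?_ ?_ ?_
        · intro u hu
          have huU := hT.1 hu
          exact (hmem _ (neg_Un huU)).2 (hT.neg_notMem hu)
        · intro u hu v hv huv
          have h3 := neg_neg' (hT.1 hu)
          have h4 := neg_neg' (hT.1 hv)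
          rw [← h3, ← h4, huv]
        · intro v hv
          have hvU := (isT_PU hq hab').1 hv
          refine ⟨q - v, ?_, neg_neg' hvU⟩
          by_contra h3
          have h4 : v ∈ PU q a b := (hT.2 v hvU).2 h3
          exact (hmem v hvU).1 hv h4
        · intro u hu
          rw [neg_neg' (hT.1 hu)]
      have h3 : ∑ v ∈ PU q ((q - 1) * a) ((q - 1) * b), n (q - v) =
          -∑ v ∈ PU q ((q - 1) * a) ((q - 1) * b), n v := by
        rw [← sum_neg_distrib]
        exact sum_congr rfl fun v hv => hnodd v ((isT_PU hq hab').1 hv)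
      rw [h2, h3, ← h1, neg_zero]
  have hz := fermat_zero q hq n (fun u h1 h2 h3 => hnodd u (mem_Un.2 ⟨h1, h2, h3⟩)) hFn
  rw [hf Φ0 h0 (singleton_subset_iff.2 hs0)]
  refine sum_eq_zero fun v hv => ?_
  have h1 := mem_Un.1 (h0.1 hv)
  exact hz v h1.1 h1.2.1 h1.2.2

end Pool.Agent.Helper65.SH
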