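import Pool.Agent.Helper65.SH.Gq

/-!
PROJECT ALLQ, block G, glue: from the family theorem (two good types give all types between them, with the
relation of the scales) and the Fermat types to ALL types.
-/

set_option autoImplicit false

namespace Pool.Agent.Helper65.SH

open Finset
open Pool.Agent.Helper44.LT (PU)
open Pool.Agent.Helper32.LU (Pr)

/-- every unit is in a type or its negative is -/
theorem IsT.mem_or {q u : ℕ} {Φ : Finset ℕ} (h : IsT q Φ) (hu : u ∈ Un q) : u ∈ Φ ∨ q - u ∈ Φ := by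
  by_cases h1 : u ∈ Φ
  · exact Or.inl h1
  · right
    by_contra h2
    exact h1 ((h.2 u hu).2 h2)

/-- the type which is `X` at the places where `A` and `B` differ and `A` elsewhere -/
def mix (q : ℕ) (A B X : Finset ℕ) : Finset ℕ :=
  (Un q).filter fun u => if (u ∈ A ↔ u ∈ B) then u ∈ A else u ∈ X

theorem mem_mix {q u : ℕ} {A B X : Finset ℕ} : u ∈ mix q A B X ↔
    u ∈ Un q ∧ (((u ∈ A ↔ u ∈ B) ∧ u ∈ A) ∨ (¬(u ∈ A ↔ u ∈ B) ∧ u ∈ X)) := by
  rw [mix, mem_filter]
  by_cases h : (u ∈ A ↔ u ∈ B)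
  · rw [if_pos h]
    tauto
  · rw [if_neg h]
    tauto

theorem mem_mix_eq {q u : ℕ} {A B X : Finset ℕ} (hu : u ∈ Un q) (h : u ∈ A ↔ u ∈ B) :
    u ∈ mix q A B X ↔ u ∈ A := by
  rw [mem_mix]
  tauto

theorem mem_mix_ne {q u : ℕ} {A B X : Finset ℕ} (hu : u ∈ Un q) (h : ¬(u ∈ A ↔ u ∈ B)) :
    u ∈ mix q A B X ↔ u ∈ X := by
  rw [mem_mix]
  tauto

theorem isT_mix {q : ℕ} {A B X : Finset ℕ} (hA : IsT q A) (hB : IsT q B) (hX : IsT q X) :
    IsT q (mix q A B X) := by
  refine ⟨fun u hu => (mem_mix.1 hu).1, fun u hu => ?_⟩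
  have hA1 := hA.2 u hu
  have hB1 := hB.2 u hu
  have hX1 := hX.2 u hu
  have hu' := neg_Un hu
  rw [mem_mix, mem_mix]
  tauto

/-- the negative type -/
def ng (q : ℕ) (A : Finset ℕ) : Finset ℕ := Un q \ A

theorem mem_ng {q u : ℕ} {A : Finset ℕ} : u ∈ ng q A ↔ u ∈ Un q ∧ u ∉ A := mem_sdiff

theorem ng_iff {q u : ℕ} {A B : Finset ℕ} (hu : u ∈ Un q) :
    (u ∈ ng q A ↔ u ∈ ng q B) ↔ (u ∈ A ↔ u ∈ B) := by
  rw [mem_ng, mem_ng]
  tauto

theorem isT_ng {q : ℕ} {A : Finset ℕ} (hA : IsT q A) : IsT q (ng q A) := by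
  refine ⟨fun u hu => (mem_ng.1 hu).1, fun u hu => ?_⟩
  have hA1 := hA.2 u hu
  have hu' := neg_Un hu
  rw [mem_ng, mem_ng]
  tauto

theorem PU_ng {q a b : ℕ} (hq : 3 ≤ q) (h : Pr q a b) :
    PU q ((q - 1) * a) ((q - 1) * b) = ng q (PU q a b) := by
  ext u
  rw [mem_ng]
  constructor
  · intro h1
    have hu := (isT_PU hq (PU_neg hq h).1).1 h1
    exact ⟨hu, ((PU_neg hq h).2 u hu).1 h1⟩
  · rintro ⟨hu, h1⟩
    exact ((PU_neg hq h).2 u hu).2 h1

/-- `C` lies between `A` and `B` -/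
def Bt (A B C : Finset ℕ) : Prop := A ∩ B ⊆ C ∧ C ⊆ A ∪ B

theorem isT_ext {q : ℕ} {A B : Finset ℕ} (hA : IsT q A) (hB : IsT q B) (h : A ⊆ B) : A = B := by
  refine Subset.antisymm h fun u hu => ?_
  rcases hA.mem_or (hB.1 hu) with h1 | h1
  · exact h1
  · exact absurd (h h1) (hB.neg_notMem hu)

/-- two Fermat types which are neither equal nor opposite -/
theorem two_fermat {q : ℕ} (hq : 3 ≤ q) (hg : 4 ≤ q.totient) :
    ∃ a b c d : ℕ, Pr q a b ∧ Pr q c d ∧ PU q a b ≠ PU q c d ∧ (PU q a b ∩ PU q c d).Nonempty := by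
  by_contra hcon
  push Not at hcon
  have h2 : Pr q 1 1 ∨ Pr q 1 (q - 2) := by
    by_cases h : Nat.Coprime 2 q
    · left
      refine ⟨fun h1 => ?_, fun h1 => ?_, h⟩ <;>
      · have := Nat.le_of_dvd one_pos h1
        omega
    · right
      refine ⟨fun h1 => ?_, fun h1 => ?_, ?_⟩
      · have := Nat.le_of_dvd one_pos h1
        omega
      · have := Nat.le_of_dvd (by omega) h1
        omega
      · rw [show 1 + (q - 2) = q - 1 by omega]
        exact (Nat.coprime_self_sub_left (by omega)).2 (Nat.coprime_one_left q)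
  obtain ⟨a, b, hab⟩ : ∃ a b, Pr q a b := by
    rcases h2 with h | h
    · exact ⟨_, _, h⟩
    · exact ⟨_, _, h⟩
  set A := PU q a b with hA
  have hTA : IsT q A := isT_PU hq hab
  -- every Fermat type is `A` or its negative
  have hall : ∀ c d, Pr q c d → PU q c d = A ∨ PU q c d = ng q A := by
    intro c d hcd
    by_cases h : A = PU q c d
    · exact Or.inl h.symm
    · right
      have h1 := hcon a b c d hab hcd h
      have hT := isT_PU hq hcd
      refine isT_ext hT (isT_ng hTA) fun u hu => ?_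
      rw [mem_ng]
      refine ⟨hT.1 hu, fun h3 => ?_⟩
      have h4 : u ∈ A ∩ PU q c d := mem_inter.2 ⟨h3, hu⟩
      rw [h1] at h4
      exact absurd h4 (notMem_empty u)
  -- two different elements of `A`
  have hcardU : (Un q).card = q.totient := by
    rw [Nat.totient_eq_card_coprime, Un]
    have : q ≠ 1 := by omega
    refine card_bij (fun u _ => u) ?_ (fun _ _ _ _ h => h) ?_
    · intro u hu
      rw [mem_filter, mem_Icc] at hu
      rw [mem_filter, mem_range]
      exact ⟨by omega, hu.2.symm⟩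
    · intro u hu
      rw [mem_filter, mem_range] at hu
      refine ⟨u, ?_, rfl⟩
      rw [mem_filter, mem_Icc]
      refine ⟨⟨?_, by omega⟩, hu.2.symm⟩
      rcases Nat.eq_zero_or_pos u with h | h
      · rw [h, Nat.coprime_zero_right] at hu
        omega
      · exact h
  have hcardA : A.card = (ng q A).card := by
    refine card_bij (fun u _ => q - u) ?_ ?_ ?_
    · intro u hu
      rw [mem_ng]
      exact ⟨neg_Un (hTA.1 hu), hTA.neg_notMem hu⟩
    · intro u hu v hv h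
      have h1 := neg_neg' (hTA.1 hu)
      have h3 := neg_neg' (hTA.1 hv)
      rw [← h1, h, h3]
    · intro u hu
      rw [mem_ng] at hu
      refine ⟨q - u, ?_, neg_neg' hu.1⟩
      rcases hTA.mem_or hu.1 with h | h
      · exact absurd h hu.2
      · exact h
  have hsum : A.card + (ng q A).card = (Un q).card := by
    rw [ng, add_comm]
    exact card_sdiff_add_card_eq_card hTA.1
  have hA2 : 1 < A.card := by omega
  obtain ⟨u, hu, v, hv, huv⟩ := one_lt_card.1 hA2
  have huU := hTA.1 hu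
  have hvU := hTA.1 hv
  -- a nonzero odd function with sum zero over all Fermat types
  set ν : ℕ → ℚ := fun x => (if x = u then 1 else 0) - (if x = q - u then 1 else 0) -
    (if x = v then 1 else 0) + (if x = q - v then 1 else 0) with hν
  have e1 : u ≠ q - u := fun h => neg_ne hq huU h.symm
  have e2 : v ≠ q - v := fun h => neg_ne hq hvU h.symm
  have e3 : u ≠ q - v := by
    intro h
    have := hTA.neg_notMem hv
    rw [← h] at this
    exact this hu
  have e4 : v ≠ q - u := by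
    intro h
    have := hTA.neg_notMem hu
    rw [← h] at this
    exact this hv
  have mu := mem_Un.1 huU
  have mv := mem_Un.1 hvU
  have hodd : ∀ x, 1 ≤ x → x < q → x.Coprime q → ν (q - x) = -ν x := by
    intro x h1 h3 _
    have c1 : (q - x = u) = (x = q - u) := by
      apply propext
      omega
    have c2 : (q - x = q - u) = (x = u) := by
      apply propext
      omega
    have c3 : (q - x = v) = (x = q - v) := by
      apply propext
      omega
    have c4 : (q - x = q - v) = (x = v) := by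
      apply propext
      omega
    simp only [hν, c1, c2, c3, c4]
    ring
  have hsA : ∑ x ∈ A, ν x = 0 := by
    simp only [hν, sum_add_distrib, sum_sub_distrib, sum_ite_eq']
    rw [if_pos hu, if_neg (hTA.neg_notMem hu), if_pos hv, if_neg (hTA.neg_notMem hv)]
    norm_num
  have hsN : ∑ x ∈ ng q A, ν x = 0 := by
    simp only [hν, sum_add_distrib, sum_sub_distrib, sum_ite_eq']
    have n1 : u ∉ ng q A := fun h => (mem_ng.1 h).2 hu
    have n2 : v ∉ ng q A := fun h => (mem_ng.1 h).2 hv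
    have n3 : q - u ∈ ng q A := mem_ng.2 ⟨neg_Un huU, hTA.neg_notMem hu⟩
    have n4 : q - v ∈ ng q A := mem_ng.2 ⟨neg_Un hvU, hTA.neg_notMem hv⟩
    rw [if_neg n1, if_neg n2, if_pos n3, if_pos n4]
    norm_num
  have h := fermat_zero q hq ν hodd (fun c d hcd => by
    rcases hall c d hcd with h | h
    · rw [h, hsA]
    · rw [h, hsN]) u mu.1 mu.2.1 mu.2.2
  simp only [hν, if_neg e1, if_neg huv, if_neg e3] at h
  norm_num at h

/-- **G1.** If the Fermat types are good and everything between two good types which are neither equal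
nor opposite is good, every type is good. -/
theorem all_good {q : ℕ} (hq : 3 ≤ q) (hg : 4 ≤ q.totient) (Gd : Finset ℕ → Prop)
    (hF : ∀ a b, Pr q a b → Gd (PU q a b))
    (hB : ∀ A B C, IsT q A → IsT q B → IsT q C → Gd A → Gd B → A ≠ B → (A ∩ B).Nonempty →
      Bt A B C → Gd C) : ∀ Φ, IsT q Φ → Gd Φ := by
  intro Φ hΦ
  obtain ⟨a, b, c, d, hab, hcd, hne, hinter⟩ := two_fermat hq hg
  set A := PU q a b with hA
  set B := PU q c d with hBd
  have hTA : IsT q A := isT_PU hq hab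
  have hTB : IsT q B := isT_PU hq hcd
  have hGA : Gd A := hF a b hab
  have hGB : Gd B := hF c d hcd
  have hGA' : Gd (ng q A) := by
    rw [hA, ← PU_ng hq hab]
    exact hF _ _ (PU_neg hq hab).1
  have hGB' : Gd (ng q B) := by
    rw [hBd, ← PU_ng hq hcd]
    exact hF _ _ (PU_neg hq hcd).1
  -- a place where they differ
  obtain ⟨w, hwA, hwB⟩ : ∃ w, w ∈ A ∧ w ∉ B := by
    by_contra h
    push Not at h
    exact hne (isT_ext hTA hTB h)
  have hwB' : q - w ∈ B := by
    rcases hTB.mem_or (hTA.1 hwA) with h | h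
    · exact absurd h hwB
    · exact h
  obtain ⟨x, hx⟩ := hinter
  rw [mem_inter] at hx
  have hT1 : IsT q (mix q A B Φ) := isT_mix hTA hTB hΦ
  have hT2 : IsT q (mix q (ng q A) (ng q B) Φ) := isT_mix (isT_ng hTA) (isT_ng hTB) hΦ
  have hG1 : Gd (mix q A B Φ) := by
    refine hB A B _ hTA hTB hT1 hGA hGB hne ⟨x, mem_inter.2 hx⟩ ⟨?_, ?_⟩
    · intro u hu
      rw [mem_inter] at hu
      rw [mem_mix]
      exact ⟨hTA.1 hu.1, Or.inl ⟨by tauto, hu.1⟩⟩
    · intro u hu
      rw [mem_mix] at hu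
      rw [mem_union]
      tauto
  have hG2 : Gd (mix q (ng q A) (ng q B) Φ) := by
    refine hB (ng q A) (ng q B) _ (isT_ng hTA) (isT_ng hTB) hT2 hGA' hGB' ?_ ?_ ⟨?_, ?_⟩
    · intro h
      have h1 : w ∈ ng q B := mem_ng.2 ⟨hTA.1 hwA, hwB⟩
      rw [← h, mem_ng] at h1
      exact h1.2 hwA
    · refine ⟨q - x, mem_inter.2 ⟨?_, ?_⟩⟩
      · exact mem_ng.2 ⟨neg_Un (hTA.1 hx.1), hTA.neg_notMem hx.1⟩
      · exact mem_ng.2 ⟨neg_Un (hTA.1 hx.1), hTB.neg_notMem hx.2⟩
    · intro u hu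
      rw [mem_inter] at hu
      rw [mem_mix]
      exact ⟨(isT_ng hTA).1 hu.1, Or.inl ⟨by tauto, hu.1⟩⟩
    · intro u hu
      rw [mem_mix] at hu
      rw [mem_union]
      tauto
  have hx1 : x ∈ mix q A B Φ := mem_mix.2 ⟨hTA.1 hx.1, Or.inl ⟨by tauto, hx.1⟩⟩
  have hx2 : x ∉ mix q (ng q A) (ng q B) Φ := by
    rw [mem_mix, mem_ng, mem_ng]
    tauto
  have hwU := hTA.1 hwA
  have hwU' := neg_Un hwU
  have hwA' : q - w ∉ A := hTA.neg_notMem hwA
  have hd : ¬(w ∈ A ↔ w ∈ B) := fun h => hwB (h.1 hwA)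
  have hd' : ¬(q - w ∈ A ↔ q - w ∈ B) := fun h => hwA' (h.2 hwB')
  refine hB _ _ Φ hT1 hT2 hΦ hG1 hG2 ?_ ?_ ⟨?_, ?_⟩
  · intro h
    rw [h] at hx1
    exact hx2 hx1
  · rcases hΦ.mem_or (hTA.1 hwA) with h | h
    · exact ⟨w, mem_inter.2 ⟨(mem_mix_ne hwU hd).2 h,
        (mem_mix_ne hwU (fun h1 => hd ((ng_iff hwU).1 h1))).2 h⟩⟩
    · exact ⟨q - w, mem_inter.2 ⟨(mem_mix_ne hwU' hd').2 h,
        (mem_mix_ne hwU' (fun h1 => hd' ((ng_iff hwU').1 h1))).2 h⟩⟩
  · intro u hu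
    rw [mem_inter] at hu
    have huU := hT1.1 hu.1
    by_cases hd : (u ∈ A ↔ u ∈ B)
    · have h1 := (mem_mix_eq huU hd).1 hu.1
      have h2 := (mem_mix_eq huU ((ng_iff huU).2 hd)).1 hu.2
      exact absurd h1 (mem_ng.1 h2).2
    · exact (mem_mix_ne huU hd).1 hu.1
  · intro u hu
    have huU := hΦ.1 hu
    rw [mem_union]
    by_cases hd : (u ∈ A ↔ u ∈ B)
    · by_cases h1 : u ∈ A
      · exact Or.inl ((mem_mix_eq huU hd).2 h1)
      · exact Or.inr ((mem_mix_eq huU ((ng_iff huU).2 hd)).2 (mem_ng.2 ⟨huU, h1⟩))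
    · exact Or.inl ((mem_mix_ne huU hd).2 hu)

/-- the exchange of two places: the type in the middle is between the ends -/
theorem bt_sw {q u v : ℕ} {Φ : Finset ℕ} (hΦ : IsT q Φ) (hu : u ∈ Φ) (hv : v ∈ Φ) (huv : u ≠ v) :
    Φ ∩ sw q u (sw q v Φ) = sw q u Φ ∩ sw q v Φ ∧
      Φ ∪ sw q u (sw q v Φ) = sw q u Φ ∪ sw q v Φ := by
  have hu1 := hΦ.neg_notMem hu
  have hv1 := hΦ.neg_notMem hv
  have e1 : q - u ≠ q - v := by
    intro h
    have h1 := neg_neg' (hΦ.1 hu)
    have h3 := neg_neg' (hΦ.1 hv)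
    exact huv (by rw [← h1, h, h3])
  have e2 : u ≠ q - v := by
    rintro h
    rw [← h] at hv1
    exact hv1 hu
  have e3 : v ≠ q - u := by
    rintro h
    rw [← h] at hu1
    exact hu1 hv
  constructor
  · ext x
    simp only [mem_inter, sw, mem_insert, mem_erase]
    by_cases h1 : x = q - u
    · subst h1
      simp [hu1, e1, e3.symm]
    · by_cases h3 : x = q - v
      · subst h3
        simp [hv1, e1.symm, e2.symm]
      · tauto
  · ext x
    simp only [mem_union, sw, mem_insert, mem_erase]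
    by_cases h1 : x = q - u
    · subst h1
      simp
    · by_cases h3 : x = q - v
      · subst h3
        simp [e2.symm]
      · by_cases h4 : x = u
        · subst h4
          simp [hu, huv, h1]
        · tauto

/-- the opposite type in the interval -/
theorem exists_op {q : ℕ} {A B C : Finset ℕ} (hA : IsT q A) (hB : IsT q B) (hC : IsT q C)
    (hbt : Bt A B C) : ∃ D, IsT q D ∧ A ∩ B = C ∩ D ∧ A ∪ B = C ∪ D := by
  have hTD : IsT q (mix q A B (ng q C)) := isT_mix hA hB (isT_ng hC)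
  have hAC : ∀ u, u ∈ A → u ∈ B → u ∈ C := fun u h1 h2 => hbt.1 (mem_inter.2 ⟨h1, h2⟩)
  have hCA : ∀ u, u ∈ C → u ∈ A ∨ u ∈ B := fun u h1 => mem_union.1 (hbt.2 h1)
  refine ⟨_, hTD, ?_, ?_⟩
  · ext u
    rw [mem_inter, mem_inter]
    by_cases hu : u ∈ Un q
    · by_cases h : (u ∈ A ↔ u ∈ B)
      · rw [mem_mix_eq hu h]
        constructor
        · rintro ⟨h1, h2⟩
          exact ⟨hAC u h1 h2, h1⟩
        · rintro ⟨h1, h2⟩
          exact ⟨h2, h.1 h2⟩
      · rw [mem_mix_ne hu h, mem_ng]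
        constructor
        · rintro ⟨h1, h2⟩
          exact absurd ⟨fun _ => h2, fun _ => h1⟩ h
        · rintro ⟨h1, h2, h3⟩
          exact absurd h1 h3
    · constructor
      · rintro ⟨h1, -⟩
        exact absurd (hA.1 h1) hu
      · rintro ⟨h1, -⟩
        exact absurd (hC.1 h1) hu
  · ext u
    rw [mem_union, mem_union]
    by_cases hu : u ∈ Un q
    · by_cases h : (u ∈ A ↔ u ∈ B)
      · rw [mem_mix_eq hu h]
        constructor
        · rintro (h1 | h1)
          · exact Or.inr h1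
          · exact Or.inr (h.2 h1)
        · rintro (h1 | h1)
          · exact hCA u h1
          · exact Or.inl h1
      · rw [mem_mix_ne hu h, mem_ng]
        constructor
        · intro _
          by_cases h2 : u ∈ C
          · exact Or.inl h2
          · exact Or.inr ⟨hu, h2⟩
        · intro _
          by_contra h2
          exact h ⟨fun h3 => absurd (Or.inl h3) h2, fun h3 => absurd (Or.inr h3) h2⟩
    · constructor
      · rintro (h1 | h1)
        · exact absurd (hA.1 h1) hu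
        · exact absurd (hB.1 h1) hu
      · rintro (h1 | h1)
        · exact absurd (hC.1 h1) hu
        · exact absurd (hTD.1 h1) hu

/-- **Block G, glue.** `Sc Φ p`: the type `Φ` is good and has the scales `p s`, `s ∈ Φ`. Hypotheses: the
scales are not zero and unique up to algebraic numbers; the Fermat types are good and the squares of their
scales are `π` times a number algebraic over `K`; family theorem: if `A`, `B` are good, neither equal nor
opposite, and `C ∩ D = A ∩ B`, `C ∪ D = A ∪ B`, then `C` and `D` are good, and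
`p_A(s) p_B(s) / (p_C(s) p_D(s))` is algebraic for `s ∈ A ∩ B`. Conclusion: ALL types are good, and the
squares of the scales are `π` times numbers algebraic over `K`. -/
theorem glue {q : ℕ} (hq : 3 ≤ q) (hg : 6 ≤ q.totient) (K : Subalgebra ℚ ℂ)
    (Sc : Finset ℕ → (ℕ → ℂ) → Prop)
    (h0 : ∀ Φ p, IsT q Φ → Sc Φ p → ∀ s ∈ Φ, p s ≠ 0)
    (hU : ∀ Φ p p', IsT q Φ → Sc Φ p → Sc Φ p' → ∀ s ∈ Φ, IsAlgebraic ℚ (p s / p' s))
    (hF : ∀ a b, Pr q a b → ∃ p, Sc (PU q a b) p ∧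
      ∀ s ∈ PU q a b, IsAlgebraic K (p s ^ 2 / Real.pi))
    (hB : ∀ A B C D, IsT q A → IsT q B → IsT q C → IsT q D → A ≠ B → (A ∩ B).Nonempty →
      A ∩ B = C ∩ D → A ∪ B = C ∪ D → ∀ p1 p2, Sc A p1 → Sc B p2 →
      ∃ p3 p4, Sc C p3 ∧ Sc D p4 ∧
        ∀ s ∈ A ∩ B, IsAlgebraic ℚ (p1 s * p2 s / (p3 s * p4 s))) :
    ∀ Φ, IsT q Φ → ∃ p, Sc Φ p ∧ ∀ s ∈ Φ, IsAlgebraic K (p s ^ 2 / Real.pi) := by
  have hQK : ∀ {z : ℂ}, IsAlgebraic ℚ z → IsAlgebraic K z := fun h =>
    h.extendScalars (FaithfulSMul.algebraMap_injective ℚ K)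
  -- every type is good
  have hall : ∀ Φ, IsT q Φ → ∃ p, Sc Φ p := by
    refine all_good hq (by omega) (fun Φ => ∃ p, Sc Φ p) (fun a b hab => ?_) ?_
    · obtain ⟨p, hp, -⟩ := hF a b hab
      exact ⟨p, hp⟩
    · rintro A B C hA hB' hC ⟨p1, hp1⟩ ⟨p2, hp2⟩ hne hin hbt
      obtain ⟨D, hTD, e1, e2⟩ := exists_op hA hB' hC hbt
      obtain ⟨p3, p4, h3, -, -⟩ := hB A B C D hA hB' hC hTD hne hin e1 e2 p1 p2 hp1 hp2
      exact ⟨p3, h3⟩
  classical
  choose! P hP using hall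
  have hmain := types_alg q hq K P (fun Φ hΦ s hs => h0 Φ _ hΦ (hP Φ hΦ) s hs) ?_ ?_
  · exact fun Φ hΦ => ⟨P Φ, hP Φ hΦ, hmain Φ hΦ⟩
  · intro Φ hΦ u v s hu hv hs huv hsu hsv
    have hT1 := hΦ.sw hq hu
    have hT2 := hΦ.sw hq hv
    have hT3 := hT2.sw hq (mem_sw hu huv)
    obtain ⟨e1, e2⟩ := bt_sw hΦ hu hv huv
    have hs3 : s ∈ sw q u (sw q v Φ) := mem_sw (mem_sw hs hsv) hsu
    have hs1 : s ∈ sw q u Φ := mem_sw hs hsu
    have hs2 : s ∈ sw q v Φ := mem_sw hs hsv
    have hne : Φ ≠ sw q u (sw q v Φ) := by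
      intro h
      have h1 : q - u ∈ sw q u (sw q v Φ) := mem_sw_self
      rw [← h] at h1
      exact hΦ.neg_notMem hu h1
    obtain ⟨p3, p4, h3, h4, h5⟩ := hB Φ (sw q u (sw q v Φ)) (sw q u Φ) (sw q v Φ) hΦ hT3 hT1 hT2 hne
      ⟨s, mem_inter.2 ⟨hs, hs3⟩⟩ e1 e2 (P Φ) (P (sw q u (sw q v Φ))) (hP _ hΦ) (hP _ hT3)
    have h6 := h5 s (mem_inter.2 ⟨hs, hs3⟩)
    have h7 := hU _ _ _ hT1 h3 (hP _ hT1) s hs1
    have h8 := hU _ _ _ hT2 h4 (hP _ hT2) s hs2
    have n3 := h0 _ _ hT1 h3 s hs1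
    have n4 := h0 _ _ hT2 h4 s hs2
    have n1 := h0 _ _ hT1 (hP _ hT1) s hs1
    have n2 := h0 _ _ hT2 (hP _ hT2) s hs2
    have h9 := (h6.mul h7).mul h8
    have e : P Φ s * P (sw q u (sw q v Φ)) s / (p3 s * p4 s) * (p3 s / P (sw q u Φ) s) *
        (p4 s / P (sw q v Φ) s) = P Φ s * P (sw q u (sw q v Φ)) s /
          (P (sw q u Φ) s * P (sw q v Φ) s) := by
      field_simp
    rw [e] at h9
    exact hQK h9
  · intro a b hab s hs
    obtain ⟨p, hp, hpa⟩ := hF a b hab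
    have hT := isT_PU hq hab
    have h1 := hU _ _ _ hT (hP _ hT) hp s hs
    have n1 := h0 _ _ hT hp s hs
    have h2 := ((hQK h1).pow 2).mul (hpa s hs)
    have e : (P (PU q a b) s / p s) ^ 2 * (p s ^ 2 / Real.pi) =
        P (PU q a b) s ^ 2 / Real.pi := by
      field_simp
    rw [e] at h2
    exact h2

end Pool.Agent.Helper65.SH
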