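import Mathlib

/-!
# Project SH (MP_274814_nt), block G: the exponential zeta function at `s = 1`
-/

set_option autoImplicit false

namespace Pool.Agent.Helper65.SH

open Filter Topology Finset

/-- summation by parts, finite form -/
theorem parts_fin (c g : ℕ → ℂ) (N : ℕ) :
    ∑ i ∈ range N, c i * g (i + 1) =
      (∑ i ∈ range N, c i) * g (N + 1) +
        ∑ i ∈ range N, (∑ j ∈ range (i + 1), c j) * (g (i + 1) - g (i + 2)) := by
  induction N with
  | zero => simp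
  | succ N ih =>
    rw [sum_range_succ, ih, sum_range_succ (fun i => (∑ j ∈ range (i + 1), c j) *
      (g (i + 1) - g (i + 2))), sum_range_succ c N]
    ring

/-- summation by parts, infinite form -/
theorem parts_inf (c g : ℕ → ℂ) (C : ℝ) (hC : ∀ N, ‖∑ i ∈ range N, c i‖ ≤ C)
    (hg : Summable fun n => ‖g (n + 1)‖) :
    ∑' n, c n * g (n + 1) =
      ∑' n, (∑ j ∈ range (n + 1), c j) * (g (n + 1) - g (n + 2)) := by
  set A : ℕ → ℂ := fun n => ∑ j ∈ range n, c j with hA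
  have h1 : Summable fun n => A (n + 1) * g (n + 1) := by
    refine Summable.of_norm_bounded (hg.mul_left C) fun n => ?_
    rw [norm_mul]
    exact mul_le_mul_of_nonneg_right (hC _) (norm_nonneg _)
  have h2 : Summable fun n => A n * g (n + 1) := by
    refine Summable.of_norm_bounded (hg.mul_left C) fun n => ?_
    rw [norm_mul]
    exact mul_le_mul_of_nonneg_right (hC _) (norm_nonneg _)
  have hg2 : Summable fun n => ‖g (n + 2)‖ := (summable_nat_add_iff 1).2 hg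
  have h3 : Summable fun n => A (n + 1) * g (n + 2) := by
    refine Summable.of_norm_bounded (hg2.mul_left C) fun n => ?_
    rw [norm_mul]
    exact mul_le_mul_of_nonneg_right (hC _) (norm_nonneg _)
  have h4 : ∑' n, A n * g (n + 1) = ∑' n, A (n + 1) * g (n + 2) := by
    rw [h2.tsum_eq_zero_add]
    simp [hA]
  calc ∑' n, c n * g (n + 1) = ∑' n, (A (n + 1) * g (n + 1) - A n * g (n + 1)) := by
        congr 1
        funext n
        simp only [hA, sum_range_succ]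
        ring
    _ = ∑' n, A (n + 1) * g (n + 1) - ∑' n, A (n + 1) * g (n + 2) := by
        rw [h1.tsum_sub h2, h4]
    _ = _ := by
        rw [← h1.tsum_sub h3]
        congr 1
        funext n
        ring

theorem summable_inv_sq : Summable fun n : ℕ => 2 / ((n : ℝ) + 1) ^ 2 := by
  have h := (summable_nat_add_iff 1).2 (Real.summable_one_div_nat_pow.2 (one_lt_two))
  refine (h.mul_left 2).congr fun n => ?_
  push_cast
  ring

/-- the bound for the differences -/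
theorem diff_bound (n : ℕ) (s : ℝ) (h1 : 1 ≤ s) (h2 : s ≤ 2) :
    |((n : ℝ) + 1) ^ (-s) - ((n : ℝ) + 2) ^ (-s)| ≤ 2 / ((n : ℝ) + 1) ^ 2 := by
  have hn : (0 : ℝ) ≤ n := n.cast_nonneg
  have ha : (0 : ℝ) < (n : ℝ) + 1 := by positivity
  have hb : (0 : ℝ) < (n : ℝ) + 2 := by positivity
  have h3 : ((n : ℝ) + 2) ^ (-s) ≤ ((n : ℝ) + 1) ^ (-s) :=
    Real.rpow_le_rpow_of_nonpos ha (by linarith) (by linarith)
  rw [abs_of_nonneg (sub_nonneg.2 h3)]
  set t : ℝ := ((n : ℝ) + 1) / ((n : ℝ) + 2) with ht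
  have ht0 : 0 < t := by positivity
  have ht1 : t ≤ 1 := by rw [ht, div_le_one hb]; linarith
  have h4 : ((n : ℝ) + 2) ^ (-s) = ((n : ℝ) + 1) ^ (-s) * t ^ s := by
    rw [ht, Real.div_rpow ha.le hb.le, Real.rpow_neg ha.le, Real.rpow_neg hb.le]
    have := (Real.rpow_pos_of_pos ha s).ne'
    have := (Real.rpow_pos_of_pos hb s).ne'
    field_simp
  have h5 : t ^ (2 : ℝ) ≤ t ^ s := Real.rpow_le_rpow_of_exponent_ge ht0 ht1 h2
  have h6 : ((n : ℝ) + 1) ^ (-s) ≤ ((n : ℝ) + 1) ^ (-1 : ℝ) :=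
    Real.rpow_le_rpow_of_exponent_le (by linarith) (by linarith)
  rw [Real.rpow_neg_one] at h6
  rw [Real.rpow_two] at h5
  rw [h4]
  have h7 : 0 < ((n : ℝ) + 1) ^ (-s) := Real.rpow_pos_of_pos ha _
  calc ((n : ℝ) + 1) ^ (-s) - ((n : ℝ) + 1) ^ (-s) * t ^ s
      = ((n : ℝ) + 1) ^ (-s) * (1 - t ^ s) := by ring
    _ ≤ ((n : ℝ) + 1)⁻¹ * (1 - t ^ 2) := by
        apply mul_le_mul h6 (by linarith) _ (by positivity)
        have : t ^ s ≤ 1 := Real.rpow_le_one ht0.le ht1 (by linarith)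
        linarith
    _ ≤ 2 / ((n : ℝ) + 1) ^ 2 := by
        rw [ht]
        have e1 : ((n : ℝ) + 1)⁻¹ * (1 - (((n : ℝ) + 1) / ((n : ℝ) + 2)) ^ 2) =
            (2 * n + 3) / (((n : ℝ) + 1) * ((n : ℝ) + 2) ^ 2) := by
          field_simp
          ring
        rw [e1, div_le_div_iff₀ (by positivity) (by positivity)]
        nlinarith [mul_nonneg hn hn, mul_nonneg (mul_nonneg hn hn) hn]

/-- the value at one of an exponential zeta function, as a conditionally convergent sum -/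
noncomputable def GG (c : ℕ → ℂ) : ℂ :=
  ∑' n : ℕ, (∑ j ∈ range (n + 1), c j) * (((n : ℂ) + 1)⁻¹ - ((n : ℂ) + 2)⁻¹)

theorem tendsto_dirichlet (c : ℕ → ℂ) (C : ℝ) (hC : ∀ N, ‖∑ i ∈ range N, c i‖ ≤ C) :
    Tendsto (fun s : ℝ => ∑' n, c n * ((((n : ℝ) + 1) ^ (-s) : ℝ) : ℂ)) (𝓝[>] 1)
      (𝓝 (GG c)) := by
  have hC0 : 0 ≤ C := (norm_nonneg _).trans (hC 0)
  have h1 : ∀ s : ℝ, 1 < s → ∑' n, c n * ((((n : ℝ) + 1) ^ (-s) : ℝ) : ℂ) =
      ∑' n : ℕ, (∑ j ∈ range (n + 1), c j) *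
        ((((n : ℝ) + 1) ^ (-s) - ((n : ℝ) + 2) ^ (-s) : ℝ) : ℂ) := by
    intro s hs
    have h2 := parts_inf c (fun n => (((n : ℝ) ^ (-s) : ℝ) : ℂ)) C hC (by
      have h3 := (summable_nat_add_iff 1).2 (Real.summable_nat_rpow.2 (by linarith : -s < -1))
      refine h3.congr fun n => ?_
      rw [Complex.norm_real, Real.norm_of_nonneg (by positivity)])
    push_cast at h2 ⊢
    convert h2 using 3
  have h2 : Tendsto (fun s : ℝ => ∑' n : ℕ, (∑ j ∈ range (n + 1), c j) *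
        ((((n : ℝ) + 1) ^ (-s) - ((n : ℝ) + 2) ^ (-s) : ℝ) : ℂ)) (𝓝[>] 1) (𝓝 (GG c)) := by
    refine tendsto_tsum_of_dominated_convergence (summable_inv_sq.mul_left C) ?_ ?_
    · intro n
      refine Tendsto.mul tendsto_const_nhds ?_
      have h3 : ContinuousAt (fun s : ℝ =>
          ((((n : ℝ) + 1) ^ (-s) - ((n : ℝ) + 2) ^ (-s) : ℝ) : ℂ)) 1 := by
        have ha : (0 : ℝ) < (n : ℝ) + 1 := by positivity
        have hb : (0 : ℝ) < (n : ℝ) + 2 := by positivity
        refine Complex.continuous_ofReal.continuousAt.comp ?_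
        refine ContinuousAt.sub ?_ ?_
        · exact ((Real.continuousAt_const_rpow ha.ne').comp continuous_neg.continuousAt)
        · exact ((Real.continuousAt_const_rpow hb.ne').comp continuous_neg.continuousAt)
      have h4 := h3.tendsto.mono_left (nhdsWithin_le_nhds (s := Set.Ioi (1 : ℝ)))
      convert h4 using 2
      push_cast
      rw [Real.rpow_neg_one, Real.rpow_neg_one]
      push_cast
      rfl
    · have h3 : Set.Ioc (1 : ℝ) 2 ∈ 𝓝[>] (1 : ℝ) := Ioc_mem_nhdsGT (by norm_num)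
      filter_upwards [h3] with s hs n
      rw [norm_mul, Complex.norm_real, Real.norm_eq_abs]
      exact mul_le_mul (hC _) (diff_bound n s hs.1.le hs.2) (abs_nonneg _) hC0
  refine h2.congr' ?_
  filter_upwards [self_mem_nhdsWithin] with s hs
  exact (h1 s hs).symm

theorem tendsto_fsums (c : ℕ → ℂ) (C : ℝ) (hC : ∀ N, ‖∑ i ∈ range N, c i‖ ≤ C) :
    Tendsto (fun N => ∑ n ∈ range N, c n * ((n : ℂ) + 1)⁻¹) atTop (𝓝 (GG c)) := by
  have hC0 : 0 ≤ C := (norm_nonneg _).trans (hC 0)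
  have h1 : ∀ N, ∑ n ∈ range N, c n * ((n : ℂ) + 1)⁻¹ =
      (∑ i ∈ range N, c i) * ((N : ℂ) + 1)⁻¹ +
        ∑ n ∈ range N, (∑ j ∈ range (n + 1), c j) * (((n : ℂ) + 1)⁻¹ - ((n : ℂ) + 2)⁻¹) := by
    intro N
    have h2 := parts_fin c (fun n => ((n : ℂ))⁻¹) N
    push_cast at h2
    exact h2
  have h2 : Summable fun n : ℕ => (∑ j ∈ range (n + 1), c j) *
      (((n : ℂ) + 1)⁻¹ - ((n : ℂ) + 2)⁻¹) := by
    refine Summable.of_norm_bounded (summable_inv_sq.mul_left C) fun n => ?_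
    rw [norm_mul]
    refine mul_le_mul (hC _) ?_ (norm_nonneg _) hC0
    have h3 := diff_bound n 1 le_rfl one_le_two
    rw [Real.rpow_neg_one, Real.rpow_neg_one] at h3
    have h4 : ((n : ℂ) + 1)⁻¹ - ((n : ℂ) + 2)⁻¹ = ((((n : ℝ) + 1)⁻¹ - ((n : ℝ) + 2)⁻¹ : ℝ) : ℂ) := by
      push_cast
      rfl
    rw [h4, Complex.norm_real]
    exact h3
  have h3 : Tendsto (fun N => (∑ i ∈ range N, c i) * ((N : ℂ) + 1)⁻¹) atTop (𝓝 0) := by
    rw [tendsto_zero_iff_norm_tendsto_zero]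
    have h4 : Tendsto (fun N : ℕ => C * (1 / ((N : ℝ) + 1))) atTop (𝓝 (C * 0)) :=
      tendsto_one_div_add_atTop_nhds_zero_nat.const_mul C
    rw [mul_zero] at h4
    refine squeeze_zero (fun _ => norm_nonneg _) (fun N => ?_) h4
    rw [norm_mul]
    refine mul_le_mul (hC _) (le_of_eq ?_) (norm_nonneg _) hC0
    have h5 : ((N : ℂ) + 1)⁻¹ = ((1 / ((N : ℝ) + 1) : ℝ) : ℂ) := by
      push_cast
      rw [one_div]
    rw [h5, Complex.norm_real, Real.norm_of_nonneg (by positivity)]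
  have h4 := h3.add h2.hasSum.tendsto_sum_nat
  rw [zero_add] at h4
  refine h4.congr fun N => ?_
  exact (h1 N).symm

/-- the Abel sum -/
theorem GG_eq_log (w : ℂ) (hw : ‖w‖ = 1) (hw1 : w ≠ 1) :
    GG (fun n => w ^ (n + 1)) = -Complex.log (1 - w) := by
  have hC : ∀ N, ‖∑ i ∈ range N, w ^ (i + 1)‖ ≤ 2 / ‖w - 1‖ := by
    intro N
    have h0 : w - 1 ≠ 0 := sub_ne_zero.2 hw1
    have h1 : ∑ i ∈ range N, w ^ (i + 1) = w * ((w ^ N - 1) / (w - 1)) := by
      rw [← geom_sum_eq hw1, mul_sum]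
      refine sum_congr rfl fun i _ => ?_
      ring
    rw [h1, norm_mul, hw, one_mul, norm_div]
    gcongr
    calc ‖w ^ N - 1‖ ≤ ‖w ^ N‖ + ‖(1 : ℂ)‖ := norm_sub_le _ _
      _ = 2 := by rw [norm_pow, hw, one_pow, norm_one]; norm_num
  have h1 := tendsto_fsums _ _ hC
  have h2 : Tendsto (fun N => ∑ n ∈ range N, w ^ n / (n : ℂ)) atTop
      (𝓝 (GG (fun n => w ^ (n + 1)))) := by
    rw [← tendsto_add_atTop_iff_nat 1]
    refine h1.congr fun N => ?_
    rw [sum_range_succ']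
    simp [div_eq_mul_inv]
  have h3 := Complex.tendsto_tsum_powerSeries_nhdsWithin_lt h2
  rw [tendsto_map'_iff] at h3
  have hslit : 1 - w ∈ Complex.slitPlane := by
    rw [Complex.mem_slitPlane_iff]
    left
    rw [Complex.sub_re, Complex.one_re]
    have h4 : w.re ≤ 1 := hw ▸ Complex.re_le_norm w
    rcases h4.lt_or_eq with h5 | h5
    · linarith
    · exfalso
      apply hw1
      have h6 := Complex.sq_norm_sub_sq_re w
      rw [hw, h5] at h6
      have h7 : w.im = 0 := by nlinarith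
      exact Complex.ext h5 h7
  have h4 : Tendsto (fun r : ℝ => -Complex.log (1 - w * (r : ℂ))) (𝓝[<] 1)
      (𝓝 (-Complex.log (1 - w))) := by
    have h5 : ContinuousAt (fun r : ℝ => -Complex.log (1 - w * (r : ℂ))) 1 := by
      refine ContinuousAt.neg ?_
      refine ContinuousAt.clog ?_ ?_
      · fun_prop
      · rwa [Complex.ofReal_one, mul_one]
    have h6 := h5.tendsto.mono_left (nhdsWithin_le_nhds (s := Set.Iio (1 : ℝ)))
    rwa [Complex.ofReal_one, mul_one] at h6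
  refine tendsto_nhds_unique h3 (h4.congr' ?_)
  have h5 : Set.Ioo (0 : ℝ) 1 ∈ 𝓝[<] (1 : ℝ) := Ioo_mem_nhdsLT (by norm_num)
  filter_upwards [h5] with r hr
  have h6 : ‖w * (r : ℂ)‖ < 1 := by
    rw [norm_mul, hw, one_mul, Complex.norm_real, Real.norm_of_nonneg hr.1.le]
    exact hr.2
  have h7 := (Complex.hasSum_taylorSeries_neg_log h6).tsum_eq
  rw [← h7]
  simp only [Function.comp_apply]
  congr 1
  funext n
  rw [mul_pow]
  ring

end Pool.Agent.Helper65.SH
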