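import Pool.Agent.Helper65.SH.Ga

/-!
# Project SH (MP_274814_nt), block G: the value at `1` of the `L`-function of an odd function
-/

set_option autoImplicit false

namespace Pool.Agent.Helper65.SH

open Filter Topology Finset

theorem expZeta_one (a : ℝ) (w : ℂ) (hw : w = Complex.exp (2 * Real.pi * Complex.I * a))
    (hw1 : w ≠ 1) (ha : (a : UnitAddCircle) ≠ 0) :
    HurwitzZeta.expZeta a 1 = -Complex.log (1 - w) := by
  have hn : ‖w‖ = 1 := by
    rw [hw, show (2 * Real.pi * Complex.I * a : ℂ) = ((2 * Real.pi * a : ℝ) : ℂ) * Complex.I by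
      push_cast; ring]
    exact Complex.norm_exp_ofReal_mul_I _
  have hC : ∀ N, ‖∑ i ∈ range N, w ^ (i + 1)‖ ≤ 2 / ‖w - 1‖ := by
    intro N
    have h0 : w - 1 ≠ 0 := sub_ne_zero.2 hw1
    have h1 : ∑ i ∈ range N, w ^ (i + 1) = w * ((w ^ N - 1) / (w - 1)) := by
      rw [← geom_sum_eq hw1, mul_sum]
      refine sum_congr rfl fun i _ => ?_
      ring
    rw [h1, norm_mul, hn, one_mul, norm_div]
    gcongr
    calc ‖w ^ N - 1‖ ≤ ‖w ^ N‖ + ‖(1 : ℂ)‖ := norm_sub_le _ _
      _ = 2 := by rw [norm_pow, hn, one_pow, norm_one]; norm_num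
  have h1 := tendsto_dirichlet _ _ hC
  rw [GG_eq_log w hn hw1] at h1
  have h2 : Tendsto (fun s : ℝ => HurwitzZeta.expZeta a (s : ℂ)) (𝓝[>] 1)
      (𝓝 (HurwitzZeta.expZeta a 1)) := by
    have h3 : ContinuousAt (fun s : ℝ => HurwitzZeta.expZeta a (s : ℂ)) 1 := by
      refine ContinuousAt.comp (g := HurwitzZeta.expZeta a) ?_
        Complex.continuous_ofReal.continuousAt
      exact (HurwitzZeta.differentiable_expZeta_of_ne_zero ha _).continuousAt
    have h4 := h3.tendsto.mono_left (nhdsWithin_le_nhds (s := Set.Ioi (1 : ℝ)))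
    rwa [Complex.ofReal_one] at h4
  refine tendsto_nhds_unique h2 (h1.congr' ?_)
  filter_upwards [self_mem_nhdsWithin] with s hs
  have hs' : (1 : ℝ) < ((s : ℂ)).re := by
    rw [Complex.ofReal_re]
    exact hs
  have h3 := HurwitzZeta.hasSum_expZeta_of_one_lt_re a hs'
  rw [← h3.tsum_eq]
  have h4 := h3.summable
  rw [h4.tsum_eq_zero_add]
  have hs0 : (s : ℂ) ≠ 0 := by
    intro h
    rw [h, Complex.zero_re] at hs'
    linarith
  rw [Nat.cast_zero, Complex.zero_cpow hs0, div_zero, zero_add]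
  refine tsum_congr fun n => ?_
  have hpos : (0 : ℝ) ≤ (n : ℝ) + 1 := by positivity
  rw [hw, ← Complex.exp_nat_mul, Complex.ofReal_cpow hpos]
  push_cast
  rw [Complex.cpow_neg, div_eq_mul_inv]
  congr 2
  ring

/-- the argument of `1 - e(x)` -/
theorem log_one_sub (x : ℝ) (h0 : 0 < x) (h1 : x < 1) :
    Complex.log (1 - Complex.exp (2 * Real.pi * Complex.I * x)) =
      (Real.log (2 * Real.sin (Real.pi * x)) : ℂ) +
        ((Real.pi * x - Real.pi / 2 : ℝ) : ℂ) * Complex.I := by
  have hsin : 0 < Real.sin (Real.pi * x) := by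
    apply Real.sin_pos_of_pos_of_lt_pi
    · exact mul_pos Real.pi_pos h0
    · calc Real.pi * x < Real.pi * 1 := mul_lt_mul_of_pos_left h1 Real.pi_pos
        _ = Real.pi := mul_one _
  set t : ℝ := Real.pi * x with ht
  have h2 : 1 - Complex.exp (2 * Real.pi * Complex.I * x) =
      ((2 * Real.sin t : ℝ) : ℂ) * Complex.exp (((t - Real.pi / 2 : ℝ) : ℂ) * Complex.I) := by
    have e1 : (2 * Real.pi * Complex.I * x : ℂ) = (t : ℂ) * Complex.I + (t : ℂ) * Complex.I := by
      rw [ht]
      push_cast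
      ring
    have e2 : Complex.exp (((t - Real.pi / 2 : ℝ) : ℂ) * Complex.I) =
        Complex.exp ((t : ℂ) * Complex.I) * (-Complex.I) := by
      have : (((t - Real.pi / 2 : ℝ) : ℂ) * Complex.I) =
          (t : ℂ) * Complex.I + (-(Real.pi / 2 * Complex.I)) := by
        push_cast
        ring
      rw [this, Complex.exp_add, Complex.exp_neg, Complex.exp_pi_div_two_mul_I, Complex.inv_I]
    rw [e1, Complex.exp_add, e2]
    push_cast
    rw [Complex.sin]
    have := Complex.exp_ne_zero ((t : ℂ) * Complex.I)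
    have e3 : Complex.exp (-(t : ℂ) * Complex.I) = (Complex.exp ((t : ℂ) * Complex.I))⁻¹ := by
      rw [neg_mul, Complex.exp_neg]
    rw [e3]
    set E := Complex.exp ((t : ℂ) * Complex.I) with hE
    have hI : Complex.I * Complex.I = -1 := Complex.I_mul_I
    field_simp
    linear_combination (1 - E ^ 2) * hI
  have hpos : 0 < 2 * Real.sin t := by positivity
  have ht0 : 0 < t := by
    rw [ht]
    exact mul_pos Real.pi_pos h0
  have ht1 : t < Real.pi := by
    rw [ht]
    calc Real.pi * x < Real.pi * 1 := mul_lt_mul_of_pos_left h1 Real.pi_pos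
      _ = Real.pi := mul_one _
  rw [h2, Complex.log_ofReal_mul hpos (Complex.exp_ne_zero _), Complex.log_exp]
  · rw [Complex.mul_I_im, Complex.ofReal_re]
    linarith [Real.pi_pos]
  · rw [Complex.mul_I_im, Complex.ofReal_re]
    linarith [Real.pi_pos]

end Pool.Agent.Helper65.SH
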