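import Pool.Agent.Helper65.SH.Gb

/-!
# Project SH (MP_274814_nt), block G: the sums `∑ χ(w) B(w a)` do not all vanish
-/

set_option autoImplicit false

namespace Pool.Agent.Helper65.SH

open Finset ZMod

/-- the sawtooth function on `ZMod q` -/
def Bz (q : ℕ) (a : ZMod q) : ℚ := if a = 0 then 0 else (a.val : ℚ) / q - 1 / 2

theorem Bz_neg (q : ℕ) [NeZero q] (a : ZMod q) : Bz q (-a) = -Bz q a := by
  unfold Bz
  by_cases h : a = 0
  · simp [h]
  · rw [if_neg h, if_neg (neg_ne_zero.2 h), ZMod.neg_val, if_neg h,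
      Nat.cast_sub (ZMod.val_lt a).le, sub_div, div_self (by exact_mod_cast NeZero.ne q)]
    ring

variable {N : ℕ} [NeZero N]

theorem expZeta_val (j : ZMod N) (hj : j ≠ 0) :
    HurwitzZeta.expZeta (ZMod.toAddCircle j) 1 =
      -((Real.log (2 * Real.sin (Real.pi * ((j.val : ℝ) / N))) : ℂ) +
        ((Real.pi * ((j.val : ℝ) / N) - Real.pi / 2 : ℝ) : ℂ) * Complex.I) := by
  have hN : (0 : ℝ) < N := by exact_mod_cast NeZero.pos N
  have hjv : 0 < j.val := by
    rw [Nat.pos_iff_ne_zero]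
    intro h
    exact hj ((ZMod.val_eq_zero j).1 h)
  have h0 : (0 : ℝ) < (j.val : ℝ) / N := div_pos (by exact_mod_cast hjv) hN
  have h1 : (j.val : ℝ) / N < 1 := by
    rw [div_lt_one hN]
    exact_mod_cast ZMod.val_lt j
  have h2 : ((((j.val : ℝ) / N : ℝ)) : UnitAddCircle) ≠ 0 := by
    rw [← ZMod.toAddCircle_apply]
    rwa [Ne, ZMod.toAddCircle_eq_zero]
  rw [ZMod.toAddCircle_apply, expZeta_one _ _ rfl _ h2, log_one_sub _ h0 h1]
  intro h3
  rw [Complex.exp_eq_one_iff] at h3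
  obtain ⟨n, hn⟩ := h3
  have h4 : (((j.val : ℝ) / N : ℝ) : ℂ) = n := by
    have h5 : (2 * Real.pi * Complex.I : ℂ) ≠ 0 := Complex.two_pi_I_ne_zero
    apply mul_left_cancel₀ h5
    rw [hn]
    ring
  have h5 : ((j.val : ℝ) / N : ℝ) = (n : ℝ) := by exact_mod_cast h4
  rw [h5] at h0 h1
  have h6 : (0 : ℤ) < n := by exact_mod_cast h0
  have h7 : n < (1 : ℤ) := by exact_mod_cast h1
  omega

theorem expZeta_diff (j : ZMod N) :
    (HurwitzZeta.expZeta (ZMod.toAddCircle (-j)) 1 - HurwitzZeta.expZeta (ZMod.toAddCircle j) 1) =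
      2 * Real.pi * Complex.I * ((Bz N j : ℚ) : ℂ) := by
  by_cases hj : j = 0
  · subst hj
    simp [Bz]
  · have hN : (N : ℝ) ≠ 0 := by exact_mod_cast NeZero.ne N
    have hN' : (N : ℂ) ≠ 0 := by exact_mod_cast NeZero.ne N
    have h1 : (((-j).val : ℝ) / N) = 1 - (j.val : ℝ) / N := by
      rw [ZMod.neg_val, if_neg hj, Nat.cast_sub (ZMod.val_lt j).le, sub_div, div_self hN]
    rw [expZeta_val j hj, expZeta_val (-j) (neg_ne_zero.2 hj), h1]
    have h2 : Real.sin (Real.pi * (1 - (j.val : ℝ) / N)) = Real.sin (Real.pi * ((j.val : ℝ) / N)) := by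
      rw [mul_sub, mul_one, Real.sin_pi_sub]
    rw [h2]
    unfold Bz
    rw [if_neg hj]
    push_cast
    ring

/-- the value at one of the `L`-function of an odd function -/
theorem LFunction_one_odd (Ψ : ZMod N → ℂ) (hΨ : Ψ.Odd) :
    ZMod.LFunction (𝓕 Ψ) 1 = Real.pi * Complex.I * ∑ j, Ψ j * ((Bz N j : ℚ) : ℂ) := by
  have h0 : Ψ 0 = 0 := by
    have := hΨ 0
    rw [neg_zero] at this
    exact self_eq_neg.1 this
  rw [ZMod.LFunction_dft Ψ (Or.inl h0)]
  have h1 : ∑ j : ZMod N, Ψ j * HurwitzZeta.expZeta (ZMod.toAddCircle (-j)) 1 =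
      -∑ j : ZMod N, Ψ j * HurwitzZeta.expZeta (ZMod.toAddCircle j) 1 := by
    rw [← Equiv.sum_comp (Equiv.neg (ZMod N)), ← Finset.sum_neg_distrib]
    refine Finset.sum_congr rfl fun j _ => ?_
    rw [Equiv.neg_apply, neg_neg, hΨ j]
    ring
  have h2 : ∑ j : ZMod N, Ψ j * (HurwitzZeta.expZeta (ZMod.toAddCircle (-j)) 1 -
      HurwitzZeta.expZeta (ZMod.toAddCircle j) 1) =
      2 * ∑ j : ZMod N, Ψ j * HurwitzZeta.expZeta (ZMod.toAddCircle (-j)) 1 := by
    simp only [mul_sub]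
    rw [Finset.sum_sub_distrib]
    have h3 : ∑ j : ZMod N, Ψ j * HurwitzZeta.expZeta (ZMod.toAddCircle j) 1 =
        -∑ j : ZMod N, Ψ j * HurwitzZeta.expZeta (ZMod.toAddCircle (-j)) 1 := by
      rw [h1, neg_neg]
    rw [h3]
    ring
  have h3 : ∑ j : ZMod N, Ψ j * (HurwitzZeta.expZeta (ZMod.toAddCircle (-j)) 1 -
      HurwitzZeta.expZeta (ZMod.toAddCircle j) 1) =
      2 * (Real.pi * Complex.I * ∑ j, Ψ j * ((Bz N j : ℚ) : ℂ)) := by
    simp only [expZeta_diff]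
    rw [Finset.mul_sum, Finset.mul_sum]
    refine Finset.sum_congr rfl fun j _ => ?_
    ring
  rw [h2] at h3
  exact mul_left_cancel₀ two_ne_zero h3

/-- `∑ χ(w) B(w a)` over the units -/
noncomputable def beta (χ : DirichletCharacter ℂ N) (a : ZMod N) : ℂ :=
  ∑ w : (ZMod N)ˣ, χ (w : ZMod N) * ((Bz N ((w : ZMod N) * a) : ℚ) : ℂ)

theorem dft_unit (χ : DirichletCharacter ℂ N) (w : (ZMod N)ˣ) (j : ZMod N) :
    𝓕 (fun x => χ x) ((w : ZMod N) * j) = χ ((w⁻¹ : (ZMod N)ˣ) : ZMod N) * 𝓕 (fun x => χ x) j := by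
  rw [ZMod.dft_apply, ZMod.dft_apply, Finset.mul_sum]
  refine Fintype.sum_equiv (Units.mulLeft w) _ _ fun x => ?_
  rw [Units.mulLeft_apply, smul_eq_mul, smul_eq_mul, map_mul]
  have h1 : χ ((w⁻¹ : (ZMod N)ˣ) : ZMod N) * χ (w : ZMod N) = 1 := by
    rw [← map_mul, ← Units.val_mul, inv_mul_cancel, Units.val_one, map_one]
  have h2 : x * ((w : ZMod N) * j) = (w : ZMod N) * x * j := by ring
  rw [h2]
  linear_combination (-(ZMod.stdAddChar (-((w : ZMod N) * x * j)) * χ x)) * h1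

theorem exists_beta (χ : DirichletCharacter ℂ N) (hodd : χ.Odd) : ∃ a, beta χ a ≠ 0 := by
  by_contra hcon
  push Not at hcon
  set ψ : DirichletCharacter ℂ N := χ⁻¹ with hψ
  have hψodd : ψ.Odd := by
    unfold DirichletCharacter.Odd at hodd ⊢
    rw [hψ, MulChar.inv_apply_eq_inv', hodd]
    norm_num
  have hne : ψ ≠ 1 := by
    intro h
    unfold DirichletCharacter.Odd at hψodd
    rw [h, MulChar.one_apply (isUnit_one.neg)] at hψodd
    norm_num at hψodd
  have hL := DirichletCharacter.LFunction_apply_one_ne_zero hne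
  apply hL
  set Ψ : ZMod N → ℂ := 𝓕 (fun x => ψ x) with hΨ
  have hfodd : (fun x => ψ x : ZMod N → ℂ).Odd := by
    intro x
    have : ψ (-x) = ψ (-1) * ψ x := by rw [← map_mul]; simp
    change ψ (-x) = -ψ x
    rw [this]
    unfold DirichletCharacter.Odd at hψodd
    rw [hψodd]
    ring
  have hΨodd : Ψ.Odd := ZMod.dft_odd_iff.2 hfodd
  have h1 := LFunction_one_odd Ψ hΨodd
  have h2 : 𝓕 Ψ = fun j => (N : ℂ) • ψ (-j) := by
    rw [hΨ, ZMod.dft_dft]
  have h3 : ZMod.LFunction (𝓕 Ψ) 1 = -(N : ℂ) * DirichletCharacter.LFunction ψ 1 := by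
    rw [h2]
    unfold DirichletCharacter.LFunction ZMod.LFunction
    rw [Finset.mul_sum, Finset.mul_sum, Finset.mul_sum]
    refine Finset.sum_congr rfl fun j _ => ?_
    have h4 : ψ (-j) = -ψ j := hfodd j
    change _ * ((N : ℂ) • ψ (-j) * _) = _
    rw [h4, smul_eq_mul]
    ring
  -- the sum vanishes
  have h4 : ∑ j, Ψ j * ((Bz N j : ℚ) : ℂ) = 0 := by
    have h5 : ∀ w : (ZMod N)ˣ, ∑ j, Ψ j * ((Bz N j : ℚ) : ℂ) =
        ∑ j, Ψ j * (χ (w : ZMod N) * ((Bz N ((w : ZMod N) * j) : ℚ) : ℂ)) := by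
      intro w
      rw [← Equiv.sum_comp (Units.mulLeft w)]
      refine Finset.sum_congr rfl fun j _ => ?_
      rw [Units.mulLeft_apply, hΨ, dft_unit]
      have h6 : ψ ((w⁻¹ : (ZMod N)ˣ) : ZMod N) = χ (w : ZMod N) := by
        rw [hψ, MulChar.inv_apply, Ring.inverse_unit, inv_inv]
      rw [h6]
      ring
    have h6 : (Fintype.card (ZMod N)ˣ : ℂ) * ∑ j, Ψ j * ((Bz N j : ℚ) : ℂ) = 0 := by
      rw [← nsmul_eq_mul, ← Finset.card_univ, ← Finset.sum_const,
        Finset.sum_congr rfl fun w _ => h5 w, Finset.sum_comm]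
      refine Finset.sum_eq_zero fun j _ => ?_
      rw [← Finset.mul_sum]
      have := hcon j
      unfold beta at this
      rw [this, mul_zero]
    rcases mul_eq_zero.1 h6 with h7 | h7
    · exfalso
      have : Fintype.card (ZMod N)ˣ ≠ 0 := Fintype.card_ne_zero
      exact this (by exact_mod_cast h7)
    · exact h7
  rw [h3, h4, mul_zero, neg_mul, neg_eq_zero] at h1
  rcases mul_eq_zero.1 h1 with h5 | h5
  · exact absurd h5 (by exact_mod_cast NeZero.ne N)
  · exact h5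

end Pool.Agent.Helper65.SH
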