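import Pool.Agent.Helper65.SH.Gc
import Pool.Agent.Helper24.GammaChar

/-!
# Project SH (MP_274814_nt), block G: an odd function killed by all sawtooth sums is zero
-/

set_option autoImplicit false

namespace Pool.Agent.Helper65.SH

open Finset

theorem odd_zero (q : ℕ) [NeZero q] (n : (ZMod q)ˣ → ℂ) (hodd : ∀ u, n (-u) = -n u)
    (hS : ∀ a : ZMod q, ∑ u : (ZMod q)ˣ, ((Bz q ((u : ZMod q) * a) : ℚ) : ℂ) * n u = 0) :
    ∀ u, n u = 0 := by
  have hc : ∀ χ : DirichletCharacter ℂ q,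
      ∑ u : (ZMod q)ˣ, χ ((u⁻¹ : (ZMod q)ˣ) : ZMod q) * n u = 0 := by
    intro χ
    rcases χ.even_or_odd with he | ho
    · have h1 : ∑ u : (ZMod q)ˣ, χ ((u⁻¹ : (ZMod q)ˣ) : ZMod q) * n u =
          -∑ u : (ZMod q)ˣ, χ ((u⁻¹ : (ZMod q)ˣ) : ZMod q) * n u := by
        conv_lhs => rw [← Equiv.sum_comp (Equiv.neg (ZMod q)ˣ)]
        rw [← Finset.sum_neg_distrib]
        refine Finset.sum_congr rfl fun u _ => ?_
        rw [Equiv.neg_apply, hodd]
        have h2 : χ (((-u)⁻¹ : (ZMod q)ˣ) : ZMod q) = χ ((u⁻¹ : (ZMod q)ˣ) : ZMod q) := by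
          have h3 : (((-u)⁻¹ : (ZMod q)ˣ) : ZMod q) = (-1) * ((u⁻¹ : (ZMod q)ˣ) : ZMod q) := by
            rw [inv_neg, Units.val_neg, neg_one_mul]
          rw [h3, map_mul]
          unfold DirichletCharacter.Even at he
          rw [he, one_mul]
        rw [h2]
        ring
      exact self_eq_neg.1 h1
    · obtain ⟨a, ha⟩ := exists_beta χ ho
      have h1 : (∑ u : (ZMod q)ˣ, χ ((u⁻¹ : (ZMod q)ˣ) : ZMod q) * n u) * beta χ a = 0 := by
        have h2 : ∑ t : (ZMod q)ˣ, χ (t : ZMod q) *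
            ∑ u : (ZMod q)ˣ, ((Bz q ((u : ZMod q) * ((t : ZMod q) * a)) : ℚ) : ℂ) * n u = 0 := by
          refine Finset.sum_eq_zero fun t _ => ?_
          rw [hS, mul_zero]
        rw [← h2]
        simp only [Finset.mul_sum]
        rw [Finset.sum_comm, Finset.sum_mul]
        refine Finset.sum_congr rfl fun u _ => ?_
        unfold beta
        rw [Finset.mul_sum]
        rw [← Equiv.sum_comp (Equiv.mulLeft u)]
        refine Finset.sum_congr rfl fun t _ => ?_
        rw [Equiv.coe_mulLeft, Units.val_mul, map_mul, mul_assoc (u : ZMod q)]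
        have h3 : χ ((u⁻¹ : (ZMod q)ˣ) : ZMod q) * χ (u : ZMod q) = 1 := by
          rw [← map_mul, ← Units.val_mul, inv_mul_cancel, Units.val_one, map_one]
        linear_combination (n u * χ (t : ZMod q) *
          ((Bz q ((u : ZMod q) * ((t : ZMod q) * a)) : ℚ) : ℂ)) * h3
      exact (mul_eq_zero.1 h1).resolve_right ha
  intro u
  rw [Pool.Agent.Helper24.GammaChar.expansion q n u]
  refine Finset.sum_eq_zero fun χ _ => ?_
  rw [hc χ, mul_zero, zero_mul]

/-- the same with values in a rational vector space -/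
theorem odd_zero_C (q : ℕ) [NeZero q] {C : Type*} [AddCommGroup C] [Module ℚ C]
    (n : (ZMod q)ˣ → C) (hodd : ∀ u, n (-u) = -n u)
    (hS : ∀ a : ZMod q, ∑ u : (ZMod q)ˣ, Bz q ((u : ZMod q) * a) • n u = 0) :
    ∀ u, n u = 0 := by
  intro u
  rw [← Module.forall_dual_apply_eq_zero_iff ℚ]
  intro l
  have h := odd_zero q (fun u => ((l (n u) : ℚ) : ℂ)) (fun u => by
    simp only [hodd u, map_neg]
    push_cast
    rfl) (fun a => by
    have h1 := congrArg l (hS a)
    rw [map_zero, map_sum] at h1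
    have h2 : ((∑ u : (ZMod q)ˣ, Bz q ((u : ZMod q) * a) * l (n u) : ℚ) : ℂ) = 0 := by
      rw [← Rat.cast_zero, ← h1]
      congr 1
      refine Finset.sum_congr rfl fun u _ => ?_
      rw [map_smul, smul_eq_mul]
    push_cast at h2
    exact h2) u
  exact_mod_cast h

end Pool.Agent.Helper65.SH
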