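import Pool.Agent.Helper65.SH.Gd
import Pool.Agent.Helper32.LU.Tb

/-!
# Project SH (MP_274814_nt), block G: the Fermat types span
-/

set_option autoImplicit false

namespace Pool.Agent.Helper65.SH

open Finset
open Pool.Agent.Helper44.LT (PU)
open Pool.Agent.Helper32.LU (Pr)

theorem sum_units_C {C : Type*} [AddCommMonoid C] (q : ℕ) [NeZero q] (hq : 2 ≤ q) (F : ℕ → C) :
    ∑ u : (ZMod q)ˣ, F (u : ZMod q).val =
      ∑ a ∈ (Icc 1 (q - 1)).filter (fun u => Nat.Coprime u q), F a := by
  refine Finset.sum_bij (fun u _ => (u : ZMod q).val) ?_ ?_ ?_ ?_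
  · intro u _
    rw [Finset.mem_filter, Finset.mem_Icc]
    have h1 := ZMod.val_coe_unit_coprime u
    have h2 := ZMod.val_lt (u : ZMod q)
    refine ⟨⟨?_, by omega⟩, h1⟩
    rcases Nat.eq_zero_or_pos (u : ZMod q).val with h | h
    · rw [h, Nat.coprime_zero_left] at h1
      omega
    · exact h
  · intro u _ v _ h
    exact Units.ext (ZMod.val_injective q h)
  · intro a ha
    rw [Finset.mem_filter, Finset.mem_Icc] at ha
    refine ⟨ZMod.unitOfCoprime a ha.2, Finset.mem_univ _, ?_⟩
    rw [ZMod.coe_unitOfCoprime, ZMod.val_natCast, Nat.mod_eq_of_lt (by omega)]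
  · intro u _
    rfl

variable {C : Type*} [AddCommGroup C] [Module ℚ C]

/-- the sawtooth sums -/
noncomputable def SS (q : ℕ) [NeZero q] (n : (ZMod q)ˣ → C) (a : ZMod q) : C :=
  ∑ u : (ZMod q)ˣ, Bz q ((u : ZMod q) * a) • n u

theorem SS_neg (q : ℕ) [NeZero q] (n : (ZMod q)ˣ → C) (a : ZMod q) :
    SS q n (-a) = -SS q n a := by
  unfold SS
  rw [← Finset.sum_neg_distrib]
  refine Finset.sum_congr rfl fun u _ => ?_
  rw [mul_neg, Bz_neg, neg_smul]

theorem Bz_natCast (q : ℕ) [NeZero q] (x : ℕ) (h : ¬ q ∣ x) :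
    Bz q (x : ZMod q) = ((x % q : ℕ) : ℚ) / q - 1 / 2 := by
  unfold Bz
  rw [if_neg (by rwa [ZMod.natCast_eq_zero_iff]), ZMod.val_natCast]

/-- the indicator of a Fermat type by the sawtooth function -/
theorem ind_eq (q : ℕ) [NeZero q] (u : (ZMod q)ˣ) (a b : ℕ) (ha : ¬ q ∣ a) (hb : ¬ q ∣ b)
    (hab : ¬ q ∣ a + b) :
    (if q < ((u : ZMod q).val * a) % q + ((u : ZMod q).val * b) % q then (1 : ℚ) else 0) =
      Bz q ((u : ZMod q) * (a : ZMod q)) + Bz q ((u : ZMod q) * (b : ZMod q)) -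
        Bz q ((u : ZMod q) * ((a + b : ℕ) : ZMod q)) + 1 / 2 := by
  have hq : 0 < q := NeZero.pos q
  have hqQ : (q : ℚ) ≠ 0 := by exact_mod_cast hq.ne'
  set v := (u : ZMod q).val with hv
  have hcop : Nat.Coprime v q := ZMod.val_coe_unit_coprime u
  have huv : (u : ZMod q) = (v : ZMod q) := (ZMod.natCast_zmod_val _).symm
  have hnd : ∀ x : ℕ, ¬ q ∣ x → ¬ q ∣ v * x := by
    intro x hx h
    exact hx (hcop.symm.dvd_of_dvd_mul_left h)
  rw [huv, ← Nat.cast_mul, ← Nat.cast_mul, ← Nat.cast_mul, Bz_natCast q _ (hnd a ha),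
    Bz_natCast q _ (hnd b hb), Bz_natCast q _ (hnd _ hab)]
  have h1 : v * (a + b) % q = ((v * a) % q + (v * b) % q) % q := by
    rw [mul_add, Nat.add_mod]
  have hA : (v * a) % q < q := Nat.mod_lt _ hq
  have hB : (v * b) % q < q := Nat.mod_lt _ hq
  have hne : (v * (a + b)) % q ≠ 0 := fun h => hnd _ hab (Nat.dvd_of_mod_eq_zero h)
  rw [h1] at hne ⊢
  set A := (v * a) % q with hAdef
  set B := (v * b) % q with hBdef
  by_cases h : q < A + B
  · rw [if_pos h]
    have h2 : (A + B) % q = A + B - q := by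
      rw [Nat.mod_eq_sub_mod h.le, Nat.mod_eq_of_lt (by omega)]
    rw [h2, Nat.cast_sub h.le, Nat.cast_add]
    field_simp
    ring
  · rw [if_neg h]
    have h3 : A + B ≠ q := by
      intro h3
      rw [h3, Nat.mod_self] at hne
      exact hne rfl
    have h2 : (A + B) % q = A + B := Nat.mod_eq_of_lt (by omega)
    rw [h2, Nat.cast_add]
    field_simp
    ring

theorem sum_PU (q : ℕ) [NeZero q] (hq : 2 ≤ q) (ν : ℕ → C)
    (hodd : ∀ u, 1 ≤ u → u < q → u.Coprime q → ν (q - u) = -ν u) (a b : ℕ) (ha : ¬ q ∣ a)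
    (hb : ¬ q ∣ b) (hab : ¬ q ∣ a + b) :
    ∑ u ∈ PU q a b, ν u = SS q (fun u => ν (u : ZMod q).val) (a : ZMod q) +
      SS q (fun u => ν (u : ZMod q).val) (b : ZMod q) -
      SS q (fun u => ν (u : ZMod q).val) ((a + b : ℕ) : ZMod q) := by
  have h0 : ∑ u : (ZMod q)ˣ, ν (u : ZMod q).val = 0 := by
    have h1 : ∑ u : (ZMod q)ˣ, ν (u : ZMod q).val = -∑ u : (ZMod q)ˣ, ν (u : ZMod q).val := by
      conv_lhs => rw [← Equiv.sum_comp (Equiv.neg (ZMod q)ˣ)]
      rw [← Finset.sum_neg_distrib]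
      refine Finset.sum_congr rfl fun u _ => ?_
      have : Fact (1 < q) := ⟨by omega⟩
      have hu0 : (u : ZMod q) ≠ 0 := u.ne_zero
      rw [Equiv.neg_apply, Units.val_neg, ZMod.neg_val, if_neg hu0]
      apply hodd _ _ (ZMod.val_lt _) (ZMod.val_coe_unit_coprime u)
      rw [Nat.one_le_iff_ne_zero, Ne, ZMod.val_eq_zero]
      exact hu0
    have h2 : (2 : ℚ) • ∑ u : (ZMod q)ˣ, ν (u : ZMod q).val = 0 := by
      rw [two_smul]
      nth_rw 2 [h1]
      rw [add_neg_cancel]
    rcases smul_eq_zero.1 h2 with h3 | h3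
    · norm_num at h3
    · exact h3
  have h1 : ∑ u ∈ PU q a b, ν u = ∑ u : (ZMod q)ˣ,
      (if q < ((u : ZMod q).val * a) % q + ((u : ZMod q).val * b) % q then (1 : ℚ) else 0) •
        ν (u : ZMod q).val := by
    rw [sum_units_C q hq (fun x => (if q < (x * a) % q + (x * b) % q then (1 : ℚ) else 0) • ν x)]
    have h2 : PU q a b = ((Icc 1 (q - 1)).filter (fun u => Nat.Coprime u q)).filter
        (fun x => q < (x * a) % q + (x * b) % q) := by
      unfold PU
      rw [Finset.filter_filter, Finset.filter_filter]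
      refine Finset.filter_congr fun x _ => ?_
      tauto
    rw [h2, Finset.sum_filter]
    refine Finset.sum_congr rfl fun x _ => ?_
    split_ifs
    · rw [one_smul]
    · rw [zero_smul]
  rw [h1]
  have h3 : ∀ u : (ZMod q)ˣ,
      (if q < ((u : ZMod q).val * a) % q + ((u : ZMod q).val * b) % q then (1 : ℚ) else 0) •
        ν (u : ZMod q).val =
      Bz q ((u : ZMod q) * (a : ZMod q)) • ν (u : ZMod q).val +
        Bz q ((u : ZMod q) * (b : ZMod q)) • ν (u : ZMod q).val -
        Bz q ((u : ZMod q) * ((a + b : ℕ) : ZMod q)) • ν (u : ZMod q).val +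
        (1 / 2 : ℚ) • ν (u : ZMod q).val := by
    intro u
    rw [ind_eq q u a b ha hb hab, add_smul, sub_smul, add_smul]
  rw [Finset.sum_congr rfl fun u _ => h3 u, Finset.sum_add_distrib, Finset.sum_sub_distrib,
    Finset.sum_add_distrib, ← Finset.smul_sum, h0, smul_zero, add_zero]
  rfl

/-- An odd function on the units whose sum over every Fermat type is zero is zero. -/
theorem fermat_zero (q : ℕ) (hq : 3 ≤ q) (ν : ℕ → C)
    (hodd : ∀ u, 1 ≤ u → u < q → u.Coprime q → ν (q - u) = -ν u)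
    (hF : ∀ a b : ℕ, Pr q a b → ∑ u ∈ PU q a b, ν u = 0) :
    ∀ u, 1 ≤ u → u < q → u.Coprime q → ν u = 0 := by
  have : NeZero q := ⟨by omega⟩
  set n : (ZMod q)ˣ → C := fun u => ν (u : ZMod q).val with hn
  have hadd : ∀ a b : ℕ, Pr q a b → SS q n (a : ZMod q) + SS q n (b : ZMod q) =
      SS q n ((a + b : ℕ) : ZMod q) := by
    intro a b hab
    have h1 : ¬ q ∣ a + b := by
      intro h
      have h2 := Nat.dvd_gcd h (dvd_refl q)
      have h3 : Nat.gcd (a + b) q = 1 := hab.2.2
      rw [h3, Nat.dvd_one] at h2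
      omega
    have h2 := sum_PU q (by omega) ν hodd a b hab.1 hab.2.1 h1
    rw [hF a b hab] at h2
    exact (sub_eq_zero.1 h2.symm)
  have hk : ∀ k : ℕ, 1 ≤ k → k < q → SS q n (k : ZMod q) = (k : ℚ) • SS q n 1 := by
    intro k
    induction k with
    | zero => intro h; omega
    | succ k ih =>
      intro _ h2
      rcases Nat.eq_zero_or_pos k with h3 | h3
      · subst h3
        simp
      · have h4 := ih h3 (by omega)
        have hP : Pr q (k + 1) (q - k) := by
          refine ⟨?_, ?_, ?_⟩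
          · exact Nat.not_dvd_of_pos_of_lt (by omega) h2
          · exact Nat.not_dvd_of_pos_of_lt (by omega) (by omega)
          · have h5 : k + 1 + (q - k) = 1 + q := by omega
            rw [h5, Nat.coprime_add_self_left]
            exact Nat.coprime_one_left q
        have h5 := hadd _ _ hP
        have h6 : ((k + 1 + (q - k) : ℕ) : ZMod q) = 1 := by
          have : k + 1 + (q - k) = 1 + q := by omega
          rw [this]
          push_cast
          rw [ZMod.natCast_self, add_zero]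
        have h7 : ((q - k : ℕ) : ZMod q) = -(k : ZMod q) := by
          rw [Nat.cast_sub (by omega), ZMod.natCast_self, zero_sub]
        rw [h6, h7, SS_neg, h4] at h5
        have h8 : SS q n ((k + 1 : ℕ) : ZMod q) = SS q n 1 + (k : ℚ) • SS q n 1 :=
          eq_add_of_add_neg_eq h5
        rw [h8]
        push_cast
        rw [add_smul, one_smul, add_comm]
  have h1 : SS q n 1 = 0 := by
    have h2 := hk (q - 1) (by omega) (by omega)
    have h3 : ((q - 1 : ℕ) : ZMod q) = -1 := by
      rw [Nat.cast_sub (by omega), ZMod.natCast_self, Nat.cast_one, zero_sub]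
    rw [h3, SS_neg] at h2
    have h4 : (q : ℚ) • SS q n 1 = 0 := by
      have h5 : (q : ℚ) = ((q - 1 : ℕ) : ℚ) + 1 := by
        rw [Nat.cast_sub (by omega)]
        push_cast
        ring
      rw [h5, add_smul, ← h2, one_smul, neg_add_cancel]
    rcases smul_eq_zero.1 h4 with h5 | h5
    · exfalso
      have : (q : ℚ) ≠ 0 := by exact_mod_cast (by omega : q ≠ 0)
      exact this h5
    · exact h5
  have hS : ∀ a : ZMod q, SS q n a = 0 := by
    intro a
    by_cases ha : a = 0
    · subst ha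
      have h2 := SS_neg q n 0
      rw [neg_zero] at h2
      have h3 : (2 : ℚ) • SS q n 0 = 0 := by
        rw [two_smul]
        nth_rw 2 [h2]
        rw [add_neg_cancel]
      rcases smul_eq_zero.1 h3 with h4 | h4
      · norm_num at h4
      · exact h4
    · have h2 := hk a.val (by
        rw [Nat.one_le_iff_ne_zero, Ne, ZMod.val_eq_zero]
        exact ha) (ZMod.val_lt a)
      rw [ZMod.natCast_zmod_val, h1, smul_zero] at h2
      exact h2
  have hnodd : ∀ u : (ZMod q)ˣ, n (-u) = -n u := by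
    intro u
    have : Fact (1 < q) := ⟨by omega⟩
    have hu0 : (u : ZMod q) ≠ 0 := u.ne_zero
    simp only [hn]
    rw [Units.val_neg, ZMod.neg_val, if_neg hu0]
    apply hodd _ _ (ZMod.val_lt _) (ZMod.val_coe_unit_coprime u)
    rw [Nat.one_le_iff_ne_zero, Ne, ZMod.val_eq_zero]
    exact hu0
  have h2 := odd_zero_C q n hnodd hS
  intro u hu1 hu2 hu3
  have h3 := h2 (ZMod.unitOfCoprime u hu3)
  simp only [hn] at h3
  rwa [ZMod.coe_unitOfCoprime, ZMod.val_natCast, Nat.mod_eq_of_lt hu2] at h3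

end Pool.Agent.Helper65.SH
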