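import Pool.Agent.Helper65.SH.Gf
import Mathlib.GroupTheory.DivisibleHull
import Mathlib.RingTheory.Algebraic.Integral
import Mathlib.Analysis.SpecialFunctions.Trigonometric.Basic

/-!
PROJECT ALLQ, block G: multiplicative form. Nonzero complex numbers modulo the numbers which are
algebraic over a field `K`, made into a rational vector space.
-/

set_option autoImplicit false

namespace Pool.Agent.Helper65.SH

open Finset
open Pool.Agent.Helper44.LT (PU)
open Pool.Agent.Helper32.LU (Pr)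

/-- the nonzero numbers algebraic over `K` -/
def AU (K : Subalgebra ℚ ℂ) : Subgroup ℂˣ where
  carrier := {x | IsAlgebraic K (x : ℂ)}
  one_mem' := by
    simp only [Set.mem_ofPred_eq, Units.val_one]
    exact isAlgebraic_one
  mul_mem' := by
    intro a b ha hb
    simp only [Set.mem_ofPred_eq, Units.val_mul] at *
    exact ha.mul hb
  inv_mem' := by
    intro a ha
    simp only [Set.mem_ofPred_eq, Units.val_inv_eq_inv_val] at *
    exact ha.inv

/-- divisible hull of a commutative group -/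
abbrev DH (M : Type) [AddCommGroup M] : Type := DivisibleHull M

/-- the rational vector space of nonzero complex numbers modulo `AU K` -/
def QV (K : Subalgebra ℚ ℂ) : Type := DH (Additive (ℂˣ ⧸ AU K))

noncomputable instance (K : Subalgebra ℚ ℂ) : AddCommGroup (QV K) :=
  inferInstanceAs (AddCommGroup (DH (Additive (ℂˣ ⧸ AU K))))

noncomputable instance (K : Subalgebra ℚ ℂ) : Module ℚ (QV K) :=
  inferInstanceAs (Module ℚ (DH (Additive (ℂˣ ⧸ AU K))))

/-- the class of a unit modulo `AU K`, written additively -/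
def cu (K : Subalgebra ℚ ℂ) : ℂˣ →* Multiplicative (Additive (ℂˣ ⧸ AU K)) :=
  (QuotientGroup.mk' (AU K) : ℂˣ →* (ℂˣ ⧸ AU K))

theorem cu_eq (K : Subalgebra ℚ ℂ) (x : ℂˣ) : (cu K x).toAdd = 0 ↔ IsAlgebraic K (x : ℂ) :=
  QuotientGroup.eq_one_iff (N := AU K) x

/-- the class of a unit as a vector -/
noncomputable def cv (K : Subalgebra ℚ ℂ) (x : ℂˣ) : QV K :=
  (DivisibleHull.mk (cu K x).toAdd 1 : DH (Additive (ℂˣ ⧸ AU K)))

theorem cv_mul (K : Subalgebra ℚ ℂ) (x y : ℂˣ) : cv K (x * y) = cv K x + cv K y := by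
  have h : (DivisibleHull.mk (cu K (x * y)).toAdd 1 : DH (Additive (ℂˣ ⧸ AU K))) =
      DivisibleHull.mk (cu K x).toAdd 1 + DivisibleHull.mk (cu K y).toAdd 1 := by
    rw [map_mul, toAdd_mul]
    exact DivisibleHull.coe_add
  exact h

theorem cv_eq_zero (K : Subalgebra ℚ ℂ) (x : ℂˣ) : cv K x = 0 ↔ IsAlgebraic K (x : ℂ) := by
  have h : (DivisibleHull.mk (cu K x).toAdd 1 : DH (Additive (ℂˣ ⧸ AU K))) = 0 ↔
      IsAlgebraic K (x : ℂ) := by
    rw [← DivisibleHull.mk_zero 1, DivisibleHull.mk_eq_mk]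
    constructor
    · rintro ⟨u, hu⟩
      have h1 : ((1 : ℕ+) : ℕ) • (cu K x).toAdd = (cu K x).toAdd := by
        rw [PNat.one_coe, one_nsmul]
      rw [h1, nsmul_zero, nsmul_zero, ← toAdd_pow, ← map_pow, cu_eq, Units.val_pow_eq_pow_val]
        at hu
      exact hu.of_pow u.pos
    · intro h
      refine ⟨1, ?_⟩
      have h2 := (cu_eq K x).2 h
      rw [h2]
  exact h

open Classical in
/-- the class of a number (0 for 0) -/
noncomputable def cl (K : Subalgebra ℚ ℂ) (x : ℂ) : QV K :=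
  if h : x = 0 then 0 else cv K (Units.mk0 x h)

theorem cl_of_ne {K : Subalgebra ℚ ℂ} {x : ℂ} (h : x ≠ 0) : cl K x = cv K (Units.mk0 x h) := by
  rw [cl, dif_neg h]

theorem cl_mul (K : Subalgebra ℚ ℂ) {x y : ℂ} (hx : x ≠ 0) (hy : y ≠ 0) :
    cl K (x * y) = cl K x + cl K y := by
  rw [cl_of_ne hx, cl_of_ne hy, cl_of_ne (mul_ne_zero hx hy), Units.mk0_mul, cv_mul]

theorem cl_eq_zero {K : Subalgebra ℚ ℂ} {x : ℂ} (hx : x ≠ 0) :
    cl K x = 0 ↔ IsAlgebraic K x := by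
  rw [cl_of_ne hx, cv_eq_zero, Units.val_mk0]

theorem cl_one (K : Subalgebra ℚ ℂ) : cl K 1 = 0 :=
  (cl_eq_zero one_ne_zero).2 isAlgebraic_one

theorem cl_inv (K : Subalgebra ℚ ℂ) {x : ℂ} (hx : x ≠ 0) : cl K x⁻¹ = -cl K x := by
  have h := cl_mul K hx (inv_ne_zero hx)
  rw [mul_inv_cancel₀ hx, cl_one] at h
  exact (neg_eq_of_add_eq_zero_right h.symm).symm

theorem cl_div (K : Subalgebra ℚ ℂ) {x y : ℂ} (hx : x ≠ 0) (hy : y ≠ 0) :
    cl K (x / y) = cl K x - cl K y := by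
  rw [div_eq_mul_inv, cl_mul K hx (inv_ne_zero hy), cl_inv K hy, sub_eq_add_neg]

theorem cl_pow (K : Subalgebra ℚ ℂ) {x : ℂ} (hx : x ≠ 0) (n : ℕ) :
    cl K (x ^ n) = n • cl K x := by
  induction n with
  | zero => rw [pow_zero, cl_one, zero_smul]
  | succ n ih => rw [pow_succ, cl_mul K (pow_ne_zero n hx) hx, ih, succ_nsmul]

theorem cl_eq_cl {K : Subalgebra ℚ ℂ} {x y : ℂ} (hx : x ≠ 0) (hy : y ≠ 0) :
    cl K x = cl K y ↔ IsAlgebraic K (x / y) := by
  rw [← cl_eq_zero (div_ne_zero hx hy), cl_div K hx hy, sub_eq_zero]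

/-- **Block G, multiplicative form.** Nonzero numbers `p Φ s` (the scales of the type `Φ`), which satisfy
the relations of the 2-faces modulo numbers algebraic over `K`, and whose squares are `π` times a number
algebraic over `K` for the Fermat types: then this holds for ALL types. -/
theorem types_alg (q : ℕ) (hq : 3 ≤ q) (K : Subalgebra ℚ ℂ) (p : Finset ℕ → ℕ → ℂ)
    (h0 : ∀ Φ, IsT q Φ → ∀ s ∈ Φ, p Φ s ≠ 0)
    (hP : ∀ Φ, IsT q Φ → ∀ u v s, u ∈ Φ → v ∈ Φ → s ∈ Φ → u ≠ v → s ≠ u → s ≠ v →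
      IsAlgebraic K (p Φ s * p (sw q u (sw q v Φ)) s / (p (sw q u Φ) s * p (sw q v Φ) s)))
    (hF : ∀ a b : ℕ, Pr q a b → ∀ s ∈ PU q a b, IsAlgebraic K (p (PU q a b) s ^ 2 / Real.pi)) :
    ∀ Φ, IsT q Φ → ∀ s ∈ Φ, IsAlgebraic K (p Φ s ^ 2 / Real.pi) := by
  have hpi : (Real.pi : ℂ) ≠ 0 := by exact_mod_cast Real.pi_ne_zero
  intro Φ hΦ s hs
  have hn : ∀ Φ, IsT q Φ → ∀ s ∈ Φ, p Φ s ^ 2 / Real.pi ≠ 0 := fun Φ hΦ s hs =>
    div_ne_zero (pow_ne_zero 2 (h0 Φ hΦ s hs)) hpi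
  rw [← cl_eq_zero (hn Φ hΦ s hs)]
  refine types_zero q hq (fun Φ s => cl K (p Φ s ^ 2 / Real.pi)) ?_ ?_ Φ hΦ s hs
  · intro Φ hΦ u v s hu hv hs huv hsu hsv
    have hT1 := hΦ.sw hq hu
    have hT2 := hΦ.sw hq hv
    have h1 : u ∈ sw q v Φ := mem_sw hu huv
    have hT3 := hT2.sw hq h1
    have hs1 : s ∈ sw q u Φ := mem_sw hs hsu
    have hs2 : s ∈ sw q v Φ := mem_sw hs hsv
    have hs3 : s ∈ sw q u (sw q v Φ) := mem_sw hs2 hsu
    have e0 := h0 Φ hΦ s hs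
    have e1 := h0 _ hT1 s hs1
    have e2 := h0 _ hT2 s hs2
    have e3 := h0 _ hT3 s hs3
    have key := hP Φ hΦ u v s hu hv hs huv hsu hsv
    rw [← cl_eq_cl (mul_ne_zero e0 e3) (mul_ne_zero e1 e2), cl_mul K e0 e3, cl_mul K e1 e2] at key
    rw [cl_div K (pow_ne_zero 2 e0) hpi, cl_div K (pow_ne_zero 2 e1) hpi,
      cl_div K (pow_ne_zero 2 e2) hpi, cl_div K (pow_ne_zero 2 e3) hpi, cl_pow K e0, cl_pow K e1,
      cl_pow K e2, cl_pow K e3]
    have h5 : 2 • cl K (p Φ s) + 2 • cl K (p (sw q u (sw q v Φ)) s) =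
        2 • cl K (p (sw q u Φ) s) + 2 • cl K (p (sw q v Φ) s) := by
      rw [← smul_add, ← smul_add, key]
    rw [sub_add_sub_comm, sub_add_sub_comm, h5]
  · intro a b hab s hs
    exact (cl_eq_zero (hn _ (isT_PU hq hab) s hs)).2 (hF a b hab s hs)

end Pool.Agent.Helper65.SH
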